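import Mathlib

set_option autoImplicit false

namespace Pool.Agent.H92Rev

section Helpers
open Module Module.End

section linalg
variable {V W : Type*} [AddCommGroup V] [Module ℂ V] [FiniteDimensional ℂ V]
  [AddCommGroup W] [Module ℂ W]

open Classical in
theorem internal (T : End ℂ V) : DirectSum.IsInternal (fun μ : ℂ => T.maxGenEigenspace μ) :=
  DirectSum.isInternal_submodule_of_iSupIndep_of_iSup_eq_top T.independent_maxGenEigenspace
    (iSup_maxGenEigenspace_eq_top T)

open Classical in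
/-- The functional calculus by a function `c` on the generalized eigenspaces. -/
noncomputable def Tc (c : ℂ → ℂ) (T : End ℂ V) : End ℂ V :=
  (DirectSum.toModule ℂ ℂ V (fun μ => c μ • (T.maxGenEigenspace μ).subtype)) ∘ₗ
   (LinearEquiv.ofBijective (DirectSum.coeLinearMap (fun μ : ℂ => T.maxGenEigenspace μ))
    (show Function.Bijective _ from internal T)).symm.toLinearMap

open Classical in
theorem Tc_apply (c : ℂ → ℂ) (T : End ℂ V) {μ : ℂ} {v : V} (hv : v ∈ T.maxGenEigenspace μ) :
    Tc c T v = c μ • v := by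
  have h : (LinearEquiv.ofBijective (DirectSum.coeLinearMap (fun μ : ℂ => T.maxGenEigenspace μ))
    (show Function.Bijective _ from internal T)).symm v = DirectSum.lof ℂ ℂ (fun μ => T.maxGenEigenspace μ) μ ⟨v, hv⟩ := by
    rw [LinearEquiv.symm_apply_eq]
    simp
  unfold Tc
  simp only [LinearMap.comp_apply, LinearEquiv.coe_coe]
  rw [h, DirectSum.toModule_lof]
  simp

theorem ext_eig (T : End ℂ V) (f g : V →ₗ[ℂ] W)
    (h : ∀ μ : ℂ, ∀ v ∈ T.maxGenEigenspace μ, f v = g v) : f = g := by
  have h1 : (⊤ : Submodule ℂ V) ≤ LinearMap.eqLocus f g := by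
    rw [← iSup_maxGenEigenspace_eq_top T]
    apply iSup_le
    intro μ v hv
    exact h μ v hv
  ext v
  exact h1 (Submodule.mem_top (x := v))

omit [FiniteDimensional ℂ V] in
theorem map_eig {T : End ℂ V} {T' : End ℂ W} {X : V →ₗ[ℂ] W} {e : ℂ}
    (h : ∀ v, e • X (T v) = T' (X v)) {μ : ℂ} {v : V} (hv : v ∈ T.maxGenEigenspace μ) :
    X v ∈ T'.maxGenEigenspace (e * μ) := by
  rw [mem_maxGenEigenspace] at *
  obtain ⟨k, hk⟩ := hv
  refine ⟨k, ?_⟩
  have key : ∀ (k : ℕ) (w : V), ((T' - (e * μ) • (1 : End ℂ W)) ^ k) (X w) =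
      e ^ k • X (((T - μ • (1 : End ℂ V)) ^ k) w) := by
    intro k
    induction k with
    | zero => intro w; simp
    | succ k ih =>
      intro w
      rw [pow_succ (T' - (e * μ) • (1 : End ℂ W)), pow_succ (T - μ • (1 : End ℂ V)),
        Module.End.mul_apply, Module.End.mul_apply]
      have h1 : (T' - (e * μ) • (1 : End ℂ W)) (X w) = X (e • ((T - μ • (1 : End ℂ V)) w)) := by
        simp only [LinearMap.sub_apply, LinearMap.smul_apply, Module.End.one_apply]
        rw [← h w, smul_sub, map_sub, map_smul, map_smul, map_smul, smul_smul]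
      rw [h1, ih, map_smul, map_smul, smul_smul, pow_succ]
  rw [key, hk, map_zero, smul_zero]

/-- naturality of `Tc` -/
theorem Tc_nat [FiniteDimensional ℂ W] (c : ℂ → ℂ) (T : End ℂ V) (T' : End ℂ W) (X : V →ₗ[ℂ] W)
    (h : ∀ v, X (T v) = T' (X v)) (v : V) : X (Tc c T v) = Tc c T' (X v) := by
  have h1 : X ∘ₗ Tc c T = Tc c T' ∘ₗ X := by
    apply ext_eig T
    intro μ v hv
    have h2 : X v ∈ T'.maxGenEigenspace (1 * μ) := map_eig (e := 1) (by simpa using h) hv
    rw [one_mul] at h2
    simp only [LinearMap.comp_apply]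
    rw [Tc_apply c T hv, Tc_apply c T' h2, map_smul]
  exact congrArg (fun f => f v) h1

theorem Tc_sign (c : ℂ → ℂ) (e : ℂ) (he : ∀ μ, c (e * μ) = c e * c μ) (T X : End ℂ V)
    (h : ∀ v, e • X (T v) = T (X v)) (v : V) :
    Tc c T (X v) = c e • X (Tc c T v) := by
  have h1 : Tc c T ∘ₗ X = c e • (X ∘ₗ Tc c T) := by
    apply ext_eig T
    intro μ v hv
    have h2 : X v ∈ T.maxGenEigenspace (e * μ) := map_eig h hv
    simp only [LinearMap.comp_apply, LinearMap.smul_apply]
    rw [Tc_apply c T hv, Tc_apply c T h2, map_smul, he, smul_smul]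
  have := congrArg (fun f => f v) h1
  simpa using this

/-- The reversing relation passes to `Tc`. -/
theorem Tc_rev (c : ℂ → ℂ) (h1 : c 1 = 1) (hneg : c (-1) = -1)
    (hmul : ∀ μ, c (-1 * μ) = c (-1) * c μ) (T S S' : End ℂ V) (hSS' : ∀ v, S (S' v) = v)
    (hS'S : ∀ v, S' (S v) = v) (h : ∀ v, S (T (S v)) = T v) (v : V) :
    S (Tc c T (S v)) = Tc c T v := by
  -- S T = T S', T S = S' T
  have a1 : ∀ v, S (T v) = T (S' v) := by
    intro v
    have := h (S' v)
    rwa [hSS'] at this
  have a2 : ∀ v, T (S v) = S' (T v) := by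
    intro v
    have := congrArg S' (h v)
    rwa [hS'S] at this
  have b1 := Tc_sign c 1 (by intro μ; rw [h1, one_mul, one_mul]) T (S + S') (by
    intro v
    simp only [LinearMap.add_apply, one_smul, map_add]
    rw [a1, a2, add_comm]) 
  have b2 := Tc_sign c (-1) hmul T (S - S') (by
    intro v
    simp only [LinearMap.sub_apply, neg_smul, one_smul, map_sub]
    rw [a1, a2, neg_sub])
  -- add
  have c1 : ∀ v, Tc c T (S v) = S' (Tc c T v) := by
    intro v
    have e1 := b1 v
    have e2 := b2 v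
    rw [h1, one_smul] at e1
    rw [hneg, neg_smul, one_smul] at e2
    simp only [LinearMap.add_apply, LinearMap.sub_apply, map_add, map_sub] at e1 e2
    have e3 : (2 : ℂ) • Tc c T (S v) = (2 : ℂ) • S' (Tc c T v) := by
      rw [two_smul, two_smul]
      have := congrArg₂ (· + ·) e1 e2
      calc Tc c T (S v) + Tc c T (S v) = (Tc c T (S v) + Tc c T (S' v)) +
            (Tc c T (S v) - Tc c T (S' v)) := by abel
        _ = (S (Tc c T v) + S' (Tc c T v)) + -(S (Tc c T v) - S' (Tc c T v)) := this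
        _ = _ := by abel
    exact smul_right_injective V (two_ne_zero) e3
  rw [c1, hSS']

/-- powers of `Tc` -/
theorem Tc_pow (c : ℂ → ℂ) (T : End ℂ V) (m : ℕ) {μ : ℂ} {v : V}
    (hv : v ∈ T.maxGenEigenspace μ) : ((Tc c T) ^ m) v = (c μ) ^ m • v := by
  induction m with
  | zero => simp
  | succ m ih =>
    rw [pow_succ, Module.End.mul_apply, Tc_apply c T hv, map_smul, ih, smul_smul, pow_succ, mul_comm]

omit [FiniteDimensional ℂ V] in
theorem eig_of_gen {T : End ℂ V} {μ : ℂ} {v : V} (hv : v ∈ T.maxGenEigenspace μ) (hne : v ≠ 0) :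
    T.HasEigenvalue μ := by
  rw [mem_maxGenEigenspace] at hv
  obtain ⟨k, hk⟩ := hv
  have h1 : T.HasGenEigenvalue μ k := by
    unfold Module.End.HasGenEigenvalue Module.End.HasUnifEigenvalue
    rw [Submodule.ne_bot_iff]
    refine ⟨v, ?_, hne⟩
    rw [mem_genEigenspace_nat, LinearMap.mem_ker]
    exact hk
  exact Module.End.hasEigenvalue_of_hasGenEigenvalue h1

theorem Tc_finite (c : ℂ → ℂ) (hc : ∀ μ, μ ≠ 0 → ∃ m : ℕ, 1 ≤ m ∧ (c μ) ^ m = 1) (T : End ℂ V)
    (hT : Function.Injective T) : ∃ m : ℕ, 1 ≤ m ∧ (Tc c T) ^ m = 1 := by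
  classical
  -- finitely many eigenvalues
  have hfin : {μ : ℂ | T.HasEigenvalue μ}.Finite := Module.End.finite_hasEigenvalue T
  have h0 : ∀ μ ∈ hfin.toFinset, μ ≠ 0 := by
    rintro μ hμ rfl
    rw [Set.Finite.mem_toFinset] at hμ
    obtain ⟨v, hv⟩ := Module.End.HasEigenvalue.exists_hasEigenvector hμ
    have := hv.apply_eq_smul
    rw [zero_smul] at this
    exact hv.2 (hT (by rw [this, map_zero]))
  choose! m hm1 hm2 using hc
  refine ⟨∏ μ ∈ hfin.toFinset, m μ, ?_, ?_⟩
  · apply Nat.succ_le_of_lt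
    apply Finset.prod_pos
    intro μ hμ
    exact hm1 μ (h0 μ hμ)
  · apply ext_eig T
    intro μ v hv
    rw [Tc_pow c T _ hv]
    by_cases hμ : T.HasEigenvalue μ
    · have hmem : μ ∈ hfin.toFinset := by
        rw [Set.Finite.mem_toFinset]; exact hμ
      rw [← Finset.mul_prod_erase _ _ hmem, pow_mul, hm2 μ (h0 μ hmem), one_pow, one_smul]
      rfl
    · have hv0 : v = 0 := by
        by_contra hne
        exact hμ (eig_of_gen hv hne)
      rw [hv0]; simp

end linalg

section alg
variable {B : Type*} [CommRing B] [Algebra ℂ B]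

theorem mul_eig (T : B →ₐ[ℂ] B) {μ ν : ℂ} {a b : B}
    (ha : a ∈ Module.End.maxGenEigenspace T.toLinearMap μ)
    (hb : b ∈ Module.End.maxGenEigenspace T.toLinearMap ν) :
    a * b ∈ Module.End.maxGenEigenspace T.toLinearMap (μ * ν) := by
  rw [mem_maxGenEigenspace] at *
  obtain ⟨i, hi⟩ := ha
  obtain ⟨j, hj⟩ := hb
  have key : ∀ (N i j : ℕ) (a b : B), i + j ≤ N →
      ((T.toLinearMap - μ • (1 : End ℂ B)) ^ i) a = 0 →
      ((T.toLinearMap - ν • (1 : End ℂ B)) ^ j) b = 0 →
      ((T.toLinearMap - (μ * ν) • (1 : End ℂ B)) ^ N) (a * b) = 0 := by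
    intro N
    induction N with
    | zero =>
      intro i j a b hij ha hb
      have : i = 0 := by omega
      subst this
      simp only [pow_zero, Module.End.one_apply] at ha
      rw [ha, zero_mul, map_zero]
    | succ N ih =>
      intro i j a b hij ha hb
      rcases Nat.eq_zero_or_pos i with h | h
      · subst h
        simp only [pow_zero, Module.End.one_apply] at ha
        rw [ha, zero_mul, map_zero]
      rcases Nat.eq_zero_or_pos j with h' | h'
      · subst h'
        simp only [pow_zero, Module.End.one_apply] at hb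
        rw [hb, mul_zero, map_zero]
      obtain ⟨i', rfl⟩ : ∃ i', i = i' + 1 := ⟨i - 1, by omega⟩
      obtain ⟨j', rfl⟩ : ∃ j', j = j' + 1 := ⟨j - 1, by omega⟩
      rw [pow_succ, Module.End.mul_apply]
      have e1 : (T.toLinearMap - (μ * ν) • (1 : End ℂ B)) (a * b) =
          ((T.toLinearMap - μ • (1 : End ℂ B)) a) * T b +
            μ • (a * ((T.toLinearMap - ν • (1 : End ℂ B)) b)) := by
        simp only [LinearMap.sub_apply, LinearMap.smul_apply, Module.End.one_apply,
          AlgHom.toLinearMap_apply, map_mul]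
        rw [sub_mul, mul_sub, smul_sub, smul_mul_assoc, mul_smul_comm, mul_smul]
        abel
      rw [e1, map_add, map_smul]
      have hTb : ((T.toLinearMap - ν • (1 : End ℂ B)) ^ (j' + 1)) (T b) = 0 := by
        have hcomm : Commute (T.toLinearMap - ν • (1 : End ℂ B)) T.toLinearMap := by
          apply Commute.sub_left (Commute.refl _)
          exact (Commute.one_left _).smul_left ν
        have := (hcomm.pow_left (j' + 1)).eq
        have h2 := congrArg (fun f => f b) this
        simp only [Module.End.mul_apply, AlgHom.toLinearMap_apply] at h2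
        rw [h2, hb, map_zero]
      rw [pow_succ, Module.End.mul_apply] at ha hb
      have hb2 : ((T.toLinearMap - ν • (1 : End ℂ B)) ^ (j' + 1)) (T b) = 0 := hTb
      rw [ih i' (j' + 1) _ _ (by omega) ha hb2, ih (i' + 1) j' a _ (by omega)
        (by rw [pow_succ, Module.End.mul_apply]; exact ha) hb]
      simp
  exact ⟨i + j, key _ i j a b le_rfl hi hj⟩

variable [FiniteDimensional ℂ B]

theorem Tc_mul (c : ℂ → ℂ) (hc : ∀ μ ν, c (μ * ν) = c μ * c ν) (T : B →ₐ[ℂ] B) (a b : B) :
    Tc c T.toLinearMap (a * b) = Tc c T.toLinearMap a * Tc c T.toLinearMap b := by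
  have h1 : ∀ μ : ℂ, ∀ a ∈ Module.End.maxGenEigenspace T.toLinearMap μ, ∀ b : B,
      Tc c T.toLinearMap (a * b) = Tc c T.toLinearMap a * Tc c T.toLinearMap b := by
    intro μ a ha b
    have h2 : Tc c T.toLinearMap ∘ₗ LinearMap.mulLeft ℂ a =
        LinearMap.mulLeft ℂ (Tc c T.toLinearMap a) ∘ₗ Tc c T.toLinearMap := by
      apply ext_eig T.toLinearMap
      intro ν b hb
      simp only [LinearMap.comp_apply, LinearMap.mulLeft_apply]
      rw [Tc_apply c _ ha, Tc_apply c _ hb, Tc_apply c _ (mul_eig T ha hb), hc,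
        smul_mul_smul_comm]
    have := congrArg (fun f => f b) h2
    simpa using this
  have h3 : Tc c T.toLinearMap ∘ₗ LinearMap.mulRight ℂ b =
      LinearMap.mulRight ℂ (Tc c T.toLinearMap b) ∘ₗ Tc c T.toLinearMap := by
    apply ext_eig T.toLinearMap
    intro μ a ha
    simp only [LinearMap.comp_apply, LinearMap.mulRight_apply]
    exact h1 μ a ha b
  have := congrArg (fun f => f a) h3
  simpa using this

theorem Tc_one (c : ℂ → ℂ) (hc : c 1 = 1) (T : B →ₐ[ℂ] B) : Tc c T.toLinearMap 1 = 1 := by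
  have h1 : (1 : B) ∈ Module.End.maxGenEigenspace T.toLinearMap 1 := by
    rw [mem_maxGenEigenspace]
    exact ⟨1, by simp⟩
  rw [Tc_apply c _ h1, hc, one_smul]

/-- The functional calculus is an algebra map. -/
noncomputable def TcAlg (c : ℂ → ℂ) (h1 : c 1 = 1) (hc : ∀ μ ν, c (μ * ν) = c μ * c ν)
    (T : B →ₐ[ℂ] B) : B →ₐ[ℂ] B :=
  AlgHom.ofLinearMap (Tc c T.toLinearMap) (Tc_one c h1 T) (Tc_mul c hc T)

end alg

/-- `q ↦ exp (2 π i q)` as a homomorphism. -/
noncomputable def Eq0 : ℚ →+ Additive ℂˣ where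
  toFun q := Additive.ofMul (Units.mk0 (Complex.exp (2 * Real.pi * Complex.I * (q : ℂ)))
    (Complex.exp_ne_zero _))
  map_zero' := by
    apply Additive.toMul.injective
    apply Units.ext
    simp
  map_add' a b := by
    apply Additive.toMul.injective
    apply Units.ext
    simp only [toMul_ofMul, toMul_add, Units.val_mk0, Units.val_mul]
    rw [← Complex.exp_add]
    congr 1
    push_cast
    ring

theorem Eq0_val (q : ℚ) : ((Additive.toMul (Eq0 q) : ℂˣ) : ℂ) =
    Complex.exp (2 * Real.pi * Complex.I * (q : ℂ)) := rfl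

theorem Eq0_ker (q : ℚ) : Eq0 q = 0 ↔ q ∈ AddSubgroup.zmultiples (1 : ℚ) := by
  constructor
  · intro h
    have h1 : Complex.exp (2 * Real.pi * Complex.I * (q : ℂ)) = 1 := by
      rw [← Eq0_val, h]
      simp
    rw [Complex.exp_eq_one_iff] at h1
    obtain ⟨n, hn⟩ := h1
    rw [AddSubgroup.mem_zmultiples_iff]
    refine ⟨n, ?_⟩
    have h2 : (q : ℂ) = (n : ℂ) := by
      have h3 : (2 * Real.pi * Complex.I : ℂ) ≠ 0 := Complex.two_pi_I_ne_zero
      have h4 : (2 * Real.pi * Complex.I : ℂ) * (q : ℂ) = (2 * Real.pi * Complex.I) * (n : ℂ) := by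
        rw [hn]; ring
      exact mul_left_cancel₀ h3 h4
    have h5 : q = (n : ℚ) := by exact_mod_cast h2
    rw [h5]
    simp
  · intro h
    rw [AddSubgroup.mem_zmultiples_iff] at h
    obtain ⟨n, hn⟩ := h
    apply Additive.toMul.injective
    apply Units.ext
    rw [Eq0_val, ← hn]
    simp only [toMul_zero, Units.val_one]
    rw [Complex.exp_eq_one_iff]
    refine ⟨n, ?_⟩
    simp
    ring

noncomputable def Ebar : AddCircle (1 : ℚ) →+ Additive ℂˣ :=
  QuotientAddGroup.lift (AddSubgroup.zmultiples (1 : ℚ)) Eq0 (fun x hx => (Eq0_ker x).mpr hx)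

theorem Ebar_inj : Function.Injective Ebar := by
  rw [injective_iff_map_eq_zero]
  intro x
  induction x using QuotientAddGroup.induction_on with
  | H q =>
    intro h
    have h1 : Eq0 q = 0 := h
    rw [Eq0_ker] at h1
    exact (QuotientAddGroup.eq_zero_iff q).mpr h1

/-- A character of the complex numbers with finite order values and value `-1` at `-1`. -/
theorem exists_char : ∃ c : ℂ → ℂ, c 1 = 1 ∧ c (-1) = -1 ∧ (∀ μ ν, c (μ * ν) = c μ * c ν) ∧
    ∀ μ, μ ≠ 0 → ∃ m : ℕ, 1 ≤ m ∧ (c μ) ^ m = 1 := by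
  classical
  have hne : (Additive.ofMul (-1 : ℂˣ)) ≠ 0 := by
    intro h
    have h1 : (-1 : ℂˣ) = 1 := by simpa using congrArg Additive.toMul h
    have h2 : ((-1 : ℂˣ) : ℂ) = ((1 : ℂˣ) : ℂ) := by rw [h1]
    norm_num at h2
  obtain ⟨χ, hχ⟩ := CharacterModule.exists_character_apply_ne_zero_of_ne_zero hne
  set g : ℂˣ → ℂˣ := fun z => Additive.toMul (Ebar (χ (Additive.ofMul z))) with hg
  have hgmul : ∀ a b, g (a * b) = g a * g b := by
    intro a b
    simp only [hg]
    rw [ofMul_mul, map_add, map_add, toMul_add]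
  have hg1 : g 1 = 1 := by
    simp only [hg]
    rw [ofMul_one, map_zero, map_zero, toMul_zero]
  have hgneg : g (-1) = -1 := by
    have h1 : g (-1) * g (-1) = 1 := by
      rw [← hgmul]; simp [hg1]
    have h2 : g (-1) ≠ 1 := by
      intro h
      apply hχ
      apply Ebar_inj
      rw [map_zero]
      apply Additive.toMul.injective
      exact h
    have h3 : ((g (-1) : ℂˣ) : ℂ) * ((g (-1) : ℂˣ) : ℂ) = 1 := by
      rw [← Units.val_mul, h1, Units.val_one]
    have h4 := mul_self_eq_one_iff.mp h3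
    rcases h4 with h4 | h4
    · exact absurd (Units.ext h4) h2
    · apply Units.ext
      rw [h4]
      simp
  have hgfin : ∀ z, ∃ m : ℕ, 1 ≤ m ∧ (g z) ^ m = 1 := by
    intro z
    have h1 : ∀ x : AddCircle (1 : ℚ), ∃ m : ℕ, 1 ≤ m ∧ m • x = 0 := by
      intro x
      induction x using QuotientAddGroup.induction_on with
      | H q =>
        refine ⟨q.den, q.den_pos, ?_⟩
        have h2 : (q.den • (q : AddCircle (1 : ℚ)) : AddCircle (1 : ℚ)) =
            ((q.den • q : ℚ) : AddCircle (1 : ℚ)) := rfl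
        have h3 : ((q.den • q : ℚ) : AddCircle (1 : ℚ)) = 0 := by
          rw [AddCircle.coe_eq_zero_iff]
          refine ⟨q.num, ?_⟩
          rw [nsmul_eq_mul, zsmul_eq_mul, mul_one, mul_comm]
          exact (Rat.mul_den_eq_num q).symm
        exact h3
    obtain ⟨m, hm, hm2⟩ := h1 (χ (Additive.ofMul z))
    refine ⟨m, hm, ?_⟩
    simp only [hg]
    rw [← toMul_nsmul, ← map_nsmul, hm2, map_zero, toMul_zero]
  refine ⟨fun z => if h : z = 0 then 0 else ((g (Units.mk0 z h) : ℂˣ) : ℂ), ?_, ?_, ?_, ?_⟩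
  · have : Units.mk0 (1 : ℂ) one_ne_zero = 1 := by apply Units.ext; rfl
    simp only [one_ne_zero, dif_neg, not_false_iff]
    rw [this, hg1, Units.val_one]
  · have hn : (-1 : ℂ) ≠ 0 := by norm_num
    have : Units.mk0 (-1 : ℂ) hn = -1 := by apply Units.ext; simp
    simp only [hn, dif_neg, not_false_iff]
    rw [this, hgneg]
    simp
  · intro μ ν
    by_cases h1 : μ = 0
    · simp [h1]
    by_cases h2 : ν = 0
    · simp [h2]
    have h3 : μ * ν ≠ 0 := mul_ne_zero h1 h2
    simp only [h1, h2, h3, dif_neg, not_false_iff]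
    have : Units.mk0 (μ * ν) h3 = Units.mk0 μ h1 * Units.mk0 ν h2 := by
      apply Units.ext; simp
    rw [this, hgmul, Units.val_mul]
  · intro μ hμ
    obtain ⟨m, hm, hm2⟩ := hgfin (Units.mk0 μ hμ)
    refine ⟨m, hm, ?_⟩
    simp only [hμ, dif_neg, not_false_iff]
    rw [← Units.val_pow_eq_pow_val, hm2, Units.val_one]


section ps

abbrev PS (n : ℕ) := MvPowerSeries (Fin n) ℂ

/-- series of order at least `k` -/
def J (n k : ℕ) : Ideal (PS n) where
  carrier := {a | ∀ m : Fin n →₀ ℕ, m.degree < k → MvPowerSeries.coeff m a = 0}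
  zero_mem' := by intro m _; simp
  add_mem' := by
    intro a b ha hb m hm
    rw [map_add, ha m hm, hb m hm, add_zero]
  smul_mem' := by
    intro a b hb m hm
    rw [smul_eq_mul, MvPowerSeries.coeff_mul]
    apply Finset.sum_eq_zero
    rintro ⟨p, q⟩ hpq
    rw [Finset.HasAntidiagonal.mem_antidiagonal] at hpq
    simp only at hpq
    have hq : q.degree < k := by
      have : m.degree = p.degree + q.degree := by rw [← hpq, map_add]
      omega
    rw [hb q hq, mul_zero]

theorem mem_J {n k : ℕ} {a : PS n} :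
    a ∈ J n k ↔ ∀ m : Fin n →₀ ℕ, m.degree < k → MvPowerSeries.coeff m a = 0 := Iff.rfl

theorem mem_J_order {n k : ℕ} {a : PS n} : a ∈ J n k ↔ (k : ℕ∞) ≤ a.order := by
  rw [mem_J]
  constructor
  · intro h
    exact MvPowerSeries.nat_le_order h
  · intro h m hm
    apply MvPowerSeries.coeff_of_lt_order
    exact lt_of_lt_of_le (by exact_mod_cast hm) h

theorem J_mul {n k l : ℕ} {a b : PS n} (ha : a ∈ J n k) (hb : b ∈ J n l) :
    a * b ∈ J n (k + l) := by
  rw [mem_J_order] at *
  push_cast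
  exact (add_le_add ha hb).trans MvPowerSeries.le_order_mul

theorem J_mono {n k l : ℕ} (h : l ≤ k) : J n k ≤ J n l := fun _ ha m hm => ha m (by omega)

theorem J_bot {n : ℕ} {a : PS n} (h : ∀ k, a ∈ J n k) : a = 0 := by
  ext m
  rw [h (m.degree + 1) m (by omega)]
  simp

theorem hasSubst_of {n : ℕ} {K : Fin n → PS n} (hK : ∀ i, K i ∈ J n 1) :
    MvPowerSeries.HasSubst K := by
  apply MvPowerSeries.hasSubst_of_constantCoeff_zero
  intro i
  have := hK i 0 (by simp)
  simpa using this

theorem subst_J {n : ℕ} {K : Fin n → PS n} (hK : ∀ i, K i ∈ J n 1) {k : ℕ} {a : PS n}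
    (ha : a ∈ J n k) : MvPowerSeries.subst K a ∈ J n k := by
  rw [mem_J_order] at *
  refine le_trans ?_ (MvPowerSeries.le_order_subst (hasSubst_of hK) a)
  have h1 : (1 : ℕ∞) ≤ ⨅ i, (K i).order := by
    apply le_iInf
    intro i
    have := mem_J_order.mp (hK i)
    exact_mod_cast this
  calc (k : ℕ∞) = 1 * k := by rw [one_mul]
    _ ≤ _ := mul_le_mul' h1 ha

/-- truncation -/
theorem exists_poly {n : ℕ} (k : ℕ) (a : PS n) :
    ∃ p : MvPolynomial (Fin n) ℂ, a - (p : PS n) ∈ J n k := by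
  refine ⟨MvPowerSeries.truncTotal k a, ?_⟩
  intro m hm
  rw [map_sub, MvPolynomial.coeff_coe, MvPowerSeries.coeff_truncTotal _ hm, sub_self]

instance fd (n k : ℕ) : FiniteDimensional ℂ (PS n ⧸ J n k) := by
  have hfin : {m : Fin n →₀ ℕ | m.degree < k}.Finite := Finsupp.finite_of_degree_lt k
  have : Finite {m : Fin n →₀ ℕ | m.degree < k} := hfin
  let L : PS n →ₗ[ℂ] ({m : Fin n →₀ ℕ | m.degree < k} → ℂ) :=
    LinearMap.pi (fun m => MvPowerSeries.coeff m.1)
  have hL : (J n k).restrictScalars ℂ = LinearMap.ker L := by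
    ext a
    rw [LinearMap.mem_ker]
    constructor
    · intro h
      ext m
      exact h m.1 m.2
    · intro h m hm
      exact congrArg (fun f => f ⟨m, hm⟩) h
  let e : (PS n ⧸ J n k) →ₗ[ℂ] ({m : Fin n →₀ ℕ | m.degree < k} → ℂ) :=
    Submodule.liftQ ((J n k).restrictScalars ℂ) L hL.le
  apply FiniteDimensional.of_injective e
  rw [← LinearMap.ker_eq_bot]
  exact Submodule.ker_liftQ_eq_bot _ _ _ hL.ge


/-- the map induced on the quotient of jets -/
noncomputable def qm {n : ℕ} (f : PS n →ₐ[ℂ] PS n) (hf : ∀ k, ∀ a ∈ J n k, f a ∈ J n k) (k : ℕ) :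
    (PS n ⧸ J n k) →ₐ[ℂ] (PS n ⧸ J n k) :=
  Ideal.quotientMapₐ (J n k) f (fun a ha => hf k a ha)

theorem qm_mk {n : ℕ} (f : PS n →ₐ[ℂ] PS n) (hf : ∀ k, ∀ a ∈ J n k, f a ∈ J n k) (k : ℕ)
    (a : PS n) : qm f hf k (Ideal.Quotient.mk (J n k) a) = Ideal.Quotient.mk (J n k) (f a) := rfl

theorem mk_eq {n k : ℕ} {a b : PS n} :
    Ideal.Quotient.mk (J n k) a = Ideal.Quotient.mk (J n k) b ↔ a - b ∈ J n k :=
  Ideal.Quotient.eq

theorem ps_ext {n : ℕ} {a b : PS n}
    (h : ∀ k, Ideal.Quotient.mk (J n k) a = Ideal.Quotient.mk (J n k) b) : a = b := by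
  have h1 : a - b = 0 := J_bot (fun k => mk_eq.mp (h k))
  exact sub_eq_zero.mp h1

/-- Two algebra maps from power series agreeing on variables and killing `J n k` are equal. -/
theorem hom_ext_J {n k : ℕ} {B : Type*} [CommRing B] [Algebra ℂ B] (f g : PS n →ₐ[ℂ] B)
    (hf : ∀ a ∈ J n k, f a = 0) (hg : ∀ a ∈ J n k, g a = 0)
    (h : ∀ i, f (MvPowerSeries.X i) = g (MvPowerSeries.X i)) : f = g := by
  have h1 : f.comp (MvPolynomial.coeToMvPowerSeries.algHom (σ := Fin n) (R := ℂ) ℂ) =
      g.comp (MvPolynomial.coeToMvPowerSeries.algHom (σ := Fin n) (R := ℂ) ℂ) := by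
    apply MvPolynomial.algHom_ext
    intro i
    simpa using h i
  ext a
  obtain ⟨p, hp⟩ := exists_poly k a
  have h2 : f (p : PS n) = g (p : PS n) := by
    have := congrArg (fun F => F p) h1
    simpa using this
  have h3 : a = (p : PS n) + (a - (p : PS n)) := by ring
  rw [h3, map_add, map_add, h2, hf _ hp, hg _ hp]

/-- `W` is the identity modulo higher order terms if it is so on the variables. -/
theorem near_id {n : ℕ} (W : PS n →ₐ[ℂ] PS n) (hW : ∀ k, ∀ a ∈ J n k, W a ∈ J n k)
    (h : ∀ i, W (MvPowerSeries.X i) - MvPowerSeries.X i ∈ J n 2) (j : ℕ) (a : PS n)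
    (ha : a ∈ J n j) : W a - a ∈ J n (j + 1) := by
  classical
  have hmonJ : ∀ α : Fin n →₀ ℕ, (MvPowerSeries.monomial α (1 : ℂ) : PS n) ∈ J n α.degree := by
    intro α m hm
    rw [MvPowerSeries.coeff_monomial, if_neg]
    rintro rfl
    exact lt_irrefl _ hm
  have hmul : ∀ α β : Fin n →₀ ℕ, (MvPowerSeries.monomial (α + β) (1 : ℂ) : PS n) =
      MvPowerSeries.monomial α 1 * MvPowerSeries.monomial β 1 := by
    intro α β
    rw [MvPowerSeries.monomial_mul_monomial, mul_one]
  -- monomials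
  have hmon : ∀ α : Fin n →₀ ℕ, W (MvPowerSeries.monomial α (1 : ℂ)) -
      MvPowerSeries.monomial α (1 : ℂ) ∈ J n (α.degree + 1) := by
    have hadd : ∀ α β : Fin n →₀ ℕ,
        W (MvPowerSeries.monomial α (1 : ℂ)) - MvPowerSeries.monomial α (1 : ℂ) ∈
          J n (α.degree + 1) →
        W (MvPowerSeries.monomial β (1 : ℂ)) - MvPowerSeries.monomial β (1 : ℂ) ∈
          J n (β.degree + 1) →
        W (MvPowerSeries.monomial (α + β) (1 : ℂ)) - MvPowerSeries.monomial (α + β) (1 : ℂ) ∈
          J n ((α + β).degree + 1) := by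
      intro α β hα hβ
      rw [hmul, map_mul, map_add]
      have e : W (MvPowerSeries.monomial α (1 : ℂ)) * W (MvPowerSeries.monomial β (1 : ℂ)) -
          MvPowerSeries.monomial α (1 : ℂ) * MvPowerSeries.monomial β (1 : ℂ) =
          W (MvPowerSeries.monomial α (1 : ℂ)) * (W (MvPowerSeries.monomial β (1 : ℂ)) -
            MvPowerSeries.monomial β (1 : ℂ)) +
          (W (MvPowerSeries.monomial α (1 : ℂ)) - MvPowerSeries.monomial α (1 : ℂ)) *
            MvPowerSeries.monomial β (1 : ℂ) := by ring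
      rw [e]
      apply Ideal.add_mem
      · have := J_mul (hW _ _ (hmonJ α)) hβ
        exact J_mono (by omega) this
      · have := J_mul hα (hmonJ β)
        exact J_mono (by omega) this
    intro α
    induction α using Finsupp.induction_linear with
    | zero =>
      have : (MvPowerSeries.monomial (0 : Fin n →₀ ℕ) (1 : ℂ) : PS n) = 1 := rfl
      rw [this, map_one, sub_self]
      exact Ideal.zero_mem _
    | add α β hα hβ => exact hadd α β hα hβ
    | single i m =>
      induction m with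
      | zero =>
        have : (MvPowerSeries.monomial (Finsupp.single i 0 : Fin n →₀ ℕ) (1 : ℂ) : PS n) = 1 := by
          rw [Finsupp.single_zero]; rfl
        rw [this, map_one, sub_self]
        exact Ideal.zero_mem _
      | succ m ih =>
        rw [Finsupp.single_add]
        apply hadd _ _ ih
        have := h i
        rw [MvPowerSeries.X_def] at this
        exact J_mono (by simp) this
  -- general
  obtain ⟨p, hp⟩ := exists_poly (j + 1) a
  have hpJ : ∀ m ∈ p.support, j ≤ m.degree := by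
    intro m hm
    by_contra hcon
    push Not at hcon
    have h1 := hp m (by omega)
    rw [map_sub, ha m hcon, MvPolynomial.coeff_coe, zero_sub, neg_eq_zero] at h1
    exact (MvPolynomial.mem_support_iff.mp hm) h1
  have hpsum : (p : PS n) = ∑ m ∈ p.support, (p.coeff m) • MvPowerSeries.monomial m (1 : ℂ) := by
    ext m
    rw [MvPolynomial.coeff_coe, map_sum]
    simp only [MvPowerSeries.coeff_smul, MvPowerSeries.coeff_monomial, mul_ite, mul_one, mul_zero]
    rw [Finset.sum_ite_eq]
    by_cases hm : m ∈ p.support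
    · rw [if_pos hm]
    · rw [if_neg hm, MvPolynomial.notMem_support_iff.mp hm]
  have hWp : W (p : PS n) - (p : PS n) ∈ J n (j + 1) := by
    rw [hpsum, map_sum, ← Finset.sum_sub_distrib]
    apply Ideal.sum_mem
    intro m hm
    rw [map_smul, ← smul_sub]
    have h1 := J_mono (by have := hpJ m hm; omega : j + 1 ≤ m.degree + 1) (hmon m)
    rw [MvPowerSeries.smul_eq_C_mul]
    exact Ideal.mul_mem_left _ _ h1
  have e : W a - a = (W (p : PS n) - (p : PS n)) + (W (a - (p : PS n)) - (a - (p : PS n))) := by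
    rw [map_sub]; ring
  rw [e]
  exact Ideal.add_mem _ hWp (Ideal.sub_mem _ (hW _ _ hp) hp)


theorem hom_ext {n : ℕ} (f g : PS n →ₐ[ℂ] PS n) (hf : ∀ k, ∀ a ∈ J n k, f a ∈ J n k)
    (hg : ∀ k, ∀ a ∈ J n k, g a ∈ J n k)
    (h : ∀ i, f (MvPowerSeries.X i) = g (MvPowerSeries.X i)) : f = g := by
  ext1 a
  apply ps_ext
  intro k
  have h1 : (Ideal.Quotient.mkₐ ℂ (J n k)).comp f = (Ideal.Quotient.mkₐ ℂ (J n k)).comp g := by
    apply hom_ext_J (k := k)
    · intro a ha
      exact Ideal.Quotient.eq_zero_iff_mem.mpr (hf k a ha)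
    · intro a ha
      exact Ideal.Quotient.eq_zero_iff_mem.mpr (hg k a ha)
    · intro i
      simp only [AlgHom.comp_apply]
      rw [h i]
  exact congrArg (fun F => F a) h1

theorem X_mem_J {n : ℕ} (i : Fin n) : (MvPowerSeries.X i : PS n) ∈ J n 1 := by
  classical
  intro m hm
  rw [MvPowerSeries.coeff_X, if_neg]
  rintro rfl
  simp at hm

/-- the substitution homomorphism -/
noncomputable def CS {n : ℕ} (K : Fin n → PS n) (hK : ∀ i, K i ∈ J n 1) : PS n →ₐ[ℂ] PS n :=
  MvPowerSeries.substAlgHom (hasSubst_of hK)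

theorem CS_apply {n : ℕ} (K : Fin n → PS n) (hK : ∀ i, K i ∈ J n 1) (a : PS n) :
    CS K hK a = MvPowerSeries.subst K a := by
  unfold CS
  rw [MvPowerSeries.substAlgHom_apply]

theorem CS_J {n : ℕ} (K : Fin n → PS n) (hK : ∀ i, K i ∈ J n 1) (k : ℕ) (a : PS n)
    (ha : a ∈ J n k) : CS K hK a ∈ J n k := by
  rw [CS_apply]
  exact subst_J hK ha

theorem CS_X {n : ℕ} (K : Fin n → PS n) (hK : ∀ i, K i ∈ J n 1) (i : Fin n) :
    CS K hK (MvPowerSeries.X i) = K i := by
  rw [CS_apply, MvPowerSeries.subst_X (hasSubst_of hK)]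

theorem coeff_zero_mem {n : ℕ} {a : PS n} (h : a 0 = 0) : a ∈ J n 1 := by
  intro m hm
  have : m = 0 := by
    rw [← Finsupp.degree_eq_zero_iff]
    omega
  rw [this]
  exact h

theorem pow_J {n : ℕ} (f : PS n →ₐ[ℂ] PS n) (hf : ∀ k, ∀ a ∈ J n k, f a ∈ J n k) (m : ℕ) :
    ∀ k, ∀ a ∈ J n k, (f ^ m) a ∈ J n k := by
  induction m with
  | zero => intro k a ha; simpa using ha
  | succ m ih =>
    intro k a ha
    rw [pow_succ, AlgHom.mul_apply]
    exact ih k _ (hf k a ha)

theorem mainThm (n : ℕ) (F H : Fin n → PS n) (hF : ∀ i, F i 0 = 0)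
    (hFinv : ∃ G : Fin n → PS n, (∀ i, G i 0 = 0) ∧
      (∀ i, MvPowerSeries.subst G (F i) = MvPowerSeries.X i) ∧
      (∀ i, MvPowerSeries.subst F (G i) = MvPowerSeries.X i))
    (hH : ∀ i, H i 0 = 0)
    (hHinv : ∃ G : Fin n → PS n, (∀ i, G i 0 = 0) ∧
      (∀ i, MvPowerSeries.subst G (H i) = MvPowerSeries.X i) ∧
      (∀ i, MvPowerSeries.subst H (G i) = MvPowerSeries.X i))
    (hrev : ∀ i, MvPowerSeries.subst (fun j => MvPowerSeries.subst F (H j)) (F i) = H i) :
    ∃ K : Fin n → PS n, (∀ i, K i 0 = 0) ∧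
      (∃ k : ℕ, 1 ≤ k ∧
        (fun M : Fin n → PS n => fun i => MvPowerSeries.subst M (K i))^[k]
          (fun i => MvPowerSeries.X i) = (fun i => MvPowerSeries.X i)) ∧
      (∀ i, MvPowerSeries.subst (fun j => MvPowerSeries.subst F (K j)) (F i) = K i) := by
  classical
  obtain ⟨G, hG, hGF, hFG⟩ := hFinv
  obtain ⟨G', hG', hG'H, hHG'⟩ := hHinv
  have jF : ∀ i, F i ∈ J n 1 := fun i => coeff_zero_mem (hF i)
  have jG : ∀ i, G i ∈ J n 1 := fun i => coeff_zero_mem (hG i)
  have jH : ∀ i, H i ∈ J n 1 := fun i => coeff_zero_mem (hH i)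
  have jG' : ∀ i, G' i ∈ J n 1 := fun i => coeff_zero_mem (hG' i)
  obtain ⟨c, hc1, hcneg, hcmul, hcfin⟩ := exists_char
  set CF := CS F jF with hCF
  set CG := CS G jG with hCG
  set CH := CS H jH with hCH
  set CG' := CS G' jG' with hCG'
  have kF : ∀ k, ∀ a ∈ J n k, CF a ∈ J n k := CS_J F jF
  have kG : ∀ k, ∀ a ∈ J n k, CG a ∈ J n k := CS_J G jG
  have kH : ∀ k, ∀ a ∈ J n k, CH a ∈ J n k := CS_J H jH
  have kG' : ∀ k, ∀ a ∈ J n k, CG' a ∈ J n k := CS_J G' jG'
  have kcomp : ∀ (f g : PS n →ₐ[ℂ] PS n), (∀ k, ∀ a ∈ J n k, f a ∈ J n k) →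
      (∀ k, ∀ a ∈ J n k, g a ∈ J n k) → ∀ k, ∀ a ∈ J n k, (f.comp g) a ∈ J n k := by
    intro f g hf hg k a ha
    exact hf k _ (hg k a ha)
  have kid : ∀ k, ∀ a ∈ J n k, (AlgHom.id ℂ (PS n)) a ∈ J n k := fun k a ha => ha
  have eFG : CF.comp CG = AlgHom.id ℂ (PS n) := by
    apply hom_ext _ _ (kcomp _ _ kF kG) kid
    intro i
    rw [AlgHom.comp_apply, hCG, CS_X, hCF, CS_apply, hFG]
    rfl
  have eGF : CG.comp CF = AlgHom.id ℂ (PS n) := by
    apply hom_ext _ _ (kcomp _ _ kG kF) kid
    intro i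
    rw [AlgHom.comp_apply, hCF, CS_X, hCG, CS_apply, hGF]
    rfl
  have eG'H : CG'.comp CH = AlgHom.id ℂ (PS n) := by
    apply hom_ext _ _ (kcomp _ _ kG' kH) kid
    intro i
    rw [AlgHom.comp_apply, hCH, CS_X, hCG', CS_apply, hG'H]
    rfl
  have eFHF : CF.comp (CH.comp CF) = CH := by
    apply hom_ext _ _ (kcomp _ _ kF (kcomp _ _ kH kF)) kH
    intro i
    rw [AlgHom.comp_apply, AlgHom.comp_apply]
    rw [hCF, CS_X, hCH, CS_X, CS_apply, CS_apply,
      MvPowerSeries.subst_comp_subst_apply (hasSubst_of jH) (hasSubst_of jF), hrev]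
  -- quotient maps
  set T := fun k => qm CH kH k with hT
  set TC := fun k => TcAlg c hc1 hcmul (T k) with hTC
  have hTCapp : ∀ k v, TC k v = Tc c (T k).toLinearMap v := fun k v => rfl
  -- representatives
  have hrep : ∀ (k : ℕ) (i : Fin n), ∃ R : PS n,
      Ideal.Quotient.mk (J n k) R = TC k (Ideal.Quotient.mk (J n k) (MvPowerSeries.X i)) :=
    fun k i => Ideal.Quotient.mk_surjective _
  choose R hR using hrep
  set K : Fin n → PS n := fun i m => MvPowerSeries.coeff m (R (m.degree + 1) i) with hK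
  -- naturality
  have hnat : ∀ (k l : ℕ) (hkl : l ≤ k) (i : Fin n), R k i - R l i ∈ J n l := by
    intro k l hkl i
    rw [← mk_eq]
    let π : (PS n ⧸ J n k) →ₐ[ℂ] (PS n ⧸ J n l) := Ideal.Quotient.factorₐ ℂ (J_mono hkl)
    have hπ : ∀ a, π (Ideal.Quotient.mk (J n k) a) = Ideal.Quotient.mk (J n l) a := fun a => rfl
    have h1 := Tc_nat c (T k).toLinearMap (T l).toLinearMap π.toLinearMap (by
      intro v
      obtain ⟨a, rfl⟩ := Ideal.Quotient.mk_surjective v
      rfl) (Ideal.Quotient.mk (J n k) (MvPowerSeries.X i))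
    simp only [AlgHom.toLinearMap_apply] at h1
    rw [hπ, ← hTCapp, ← hTCapp, ← hR, ← hR, hπ] at h1
    exact h1
  have hKR : ∀ k i, K i - R k i ∈ J n k := by
    intro k i m hm
    have h1 := hnat k (m.degree + 1) (by omega) i m (by omega)
    rw [map_sub, sub_eq_zero] at h1
    rw [map_sub, sub_eq_zero, h1]
    rfl
  have hmkK : ∀ k i, Ideal.Quotient.mk (J n k) (K i) =
      TC k (Ideal.Quotient.mk (J n k) (MvPowerSeries.X i)) := by
    intro k i
    rw [← hR, mk_eq]
    exact hKR k i
  have jK : ∀ i, K i ∈ J n 1 := by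
    intro i
    rw [← Ideal.Quotient.eq_zero_iff_mem, hmkK,
      Ideal.Quotient.eq_zero_iff_mem.mpr (X_mem_J i), map_zero]
  set CK := CS K jK with hCK
  have kK : ∀ k, ∀ a ∈ J n k, CK a ∈ J n k := CS_J K jK
  have hmkCK : ∀ k a, Ideal.Quotient.mk (J n k) (CK a) = TC k (Ideal.Quotient.mk (J n k) a) := by
    intro k a
    have h1 : (Ideal.Quotient.mkₐ ℂ (J n k)).comp CK =
        (TC k).comp (Ideal.Quotient.mkₐ ℂ (J n k)) := by
      apply hom_ext_J (k := k)
      · intro a ha
        exact Ideal.Quotient.eq_zero_iff_mem.mpr (kK k a ha)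
      · intro a ha
        rw [AlgHom.comp_apply]
        have : (Ideal.Quotient.mkₐ ℂ (J n k)) a = 0 := Ideal.Quotient.eq_zero_iff_mem.mpr ha
        rw [this, map_zero]
      · intro i
        rw [AlgHom.comp_apply, AlgHom.comp_apply, hCK, CS_X]
        exact hmkK k i
    exact congrArg (fun F => F a) h1
  have hpowCK : ∀ (m k : ℕ) (a : PS n), Ideal.Quotient.mk (J n k) ((CK ^ m) a) =
      ((Tc c (T k).toLinearMap) ^ m) (Ideal.Quotient.mk (J n k) a) := by
    intro m k
    induction m with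
    | zero => intro a; rfl
    | succ m ih =>
      intro a
      rw [pow_succ, AlgHom.mul_apply, ih, hmkCK, hTCapp, pow_succ, Module.End.mul_apply]
  have hTinj : ∀ k, Function.Injective (T k).toLinearMap := by
    intro k
    have h1 : ∀ v, qm CG' kG' k (T k v) = v := by
      intro v
      obtain ⟨a, rfl⟩ := Ideal.Quotient.mk_surjective v
      rw [hT, qm_mk, qm_mk]
      have := congrArg (fun F => F a) eG'H
      simp only [AlgHom.comp_apply, AlgHom.id_apply] at this
      rw [this]
    intro v w hvw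
    rw [← h1 v, ← h1 w]
    exact congrArg _ hvw
  -- finite order
  obtain ⟨m, hm1, hm⟩ := Tc_finite c hcfin (T 2).toLinearMap (hTinj 2)
  have hWX : ∀ i, (CK ^ m) (MvPowerSeries.X i) - MvPowerSeries.X i ∈ J n 2 := by
    intro i
    rw [← mk_eq, hpowCK, hm]
    rfl
  have kKm := pow_J CK kK m
  have hnear := near_id (CK ^ m) kKm hWX
  have hone : CK ^ m = 1 := by
    apply AlgHom.ext
    intro a
    apply ps_ext
    intro k
    rw [hpowCK]
    have hU : (Tc c (T k).toLinearMap) ^ m = 1 := by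
      apply ext_eig (T k).toLinearMap
      intro μ v hv
      rw [Tc_pow c _ m hv, Module.End.one_apply]
      by_cases hv0 : v = 0
      · rw [hv0, smul_zero]
      obtain ⟨a, rfl⟩ := Ideal.Quotient.mk_surjective v
      have hak : a ∉ J n k := fun h => hv0 (Ideal.Quotient.eq_zero_iff_mem.mpr h)
      by_cases hcm : c μ ^ m = 1
      · rw [hcm, one_smul]
      exfalso
      have hkpos : k ≠ 0 := by
        rintro rfl
        apply hak
        intro m hm
        exact absurd hm (Nat.not_lt_zero _)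
      have hex : ∃ j, a ∉ J n (j + 1) := ⟨k - 1, by
        have : k - 1 + 1 = k := by omega
        rw [this]; exact hak⟩
      set j := Nat.find hex with hj
      have hj1 : a ∉ J n (j + 1) := Nat.find_spec hex
      have hjk : j + 1 ≤ k := by
        by_contra hcon
        push Not at hcon
        exact Nat.find_min hex (m := k - 1) (by omega) (by
          have : k - 1 + 1 = k := by omega
          rw [this]; exact hak)
      have hj0 : a ∈ J n j := by
        rcases Nat.eq_zero_or_pos j with h | h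
        · rw [h]
          intro m hm
          exact absurd hm (Nat.not_lt_zero _)
        · by_contra hcon
          exact Nat.find_min hex (m := j - 1) (by omega) (by
            have : j - 1 + 1 = j := by omega
            rw [this]; exact hcon)
      have h1 := hnear j a hj0
      have h2 : (CK ^ m) a - (c μ ^ m) • a ∈ J n (j + 1) := by
        apply J_mono hjk
        rw [← mk_eq, hpowCK, Tc_pow c _ m hv]
        rfl
      have h3 : (c μ ^ m - 1) • a ∈ J n (j + 1) := by
        have e : (c μ ^ m - 1) • a = ((CK ^ m) a - a) - ((CK ^ m) a - (c μ ^ m) • a) := by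
          rw [sub_smul, one_smul]; ring
        rw [e]
        exact Ideal.sub_mem _ h1 h2
      apply hj1
      intro w hw
      have h4 := h3 w hw
      rw [MvPowerSeries.coeff_smul] at h4
      rcases mul_eq_zero.mp h4 with h5 | h5
      · exact absurd (sub_eq_zero.mp h5) hcm
      · exact h5
    rw [hU]
    rfl
  -- reversing
  have hrevK : CF.comp (CK.comp CF) = CK := by
    apply AlgHom.ext
    intro a
    apply ps_ext
    intro k
    rw [AlgHom.comp_apply, AlgHom.comp_apply]
    have h1 := Tc_rev c hc1 hcneg (fun μ => hcmul _ _) (T k).toLinearMap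
      (qm CF kF k).toLinearMap (qm CG kG k).toLinearMap
      (by
        intro v
        obtain ⟨a, rfl⟩ := Ideal.Quotient.mk_surjective v
        have := congrArg (fun F => F a) eFG
        simp only [AlgHom.comp_apply, AlgHom.id_apply] at this
        simp only [AlgHom.toLinearMap_apply, qm_mk]
        rw [this])
      (by
        intro v
        obtain ⟨a, rfl⟩ := Ideal.Quotient.mk_surjective v
        have := congrArg (fun F => F a) eGF
        simp only [AlgHom.comp_apply, AlgHom.id_apply] at this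
        simp only [AlgHom.toLinearMap_apply, qm_mk]
        rw [this])
      (by
        intro v
        obtain ⟨a, rfl⟩ := Ideal.Quotient.mk_surjective v
        have := congrArg (fun F => F a) eFHF
        simp only [AlgHom.comp_apply] at this
        simp only [hT, AlgHom.toLinearMap_apply, qm_mk]
        rw [this])
      (Ideal.Quotient.mk (J n k) a)
    simp only [AlgHom.toLinearMap_apply, qm_mk] at h1
    rw [← hTCapp, ← hTCapp, ← hmkCK, ← hmkCK, qm_mk] at h1
    exact h1
  refine ⟨K, ?_, ⟨m, hm1, ?_⟩, ?_⟩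
  · intro i
    exact jK i 0 (by simp)
  · have hiter : ∀ q : ℕ, (fun M : Fin n → PS n => fun i => MvPowerSeries.subst M (K i))^[q]
        (fun i => MvPowerSeries.X i) = fun i => (CK ^ q) (MvPowerSeries.X i) := by
      intro q
      induction q with
      | zero => rfl
      | succ q ih =>
        rw [Function.iterate_succ_apply', ih]
        funext i
        have jM : ∀ i, (CK ^ q) (MvPowerSeries.X i) ∈ J n 1 :=
          fun i => pow_J CK kK q 1 _ (X_mem_J i)
        have h1 : CS (fun i => (CK ^ q) (MvPowerSeries.X i)) jM = CK ^ q := by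
          apply hom_ext _ _ (CS_J _ jM) (pow_J CK kK q)
          intro i
          rw [CS_X]
        have h2 := CS_apply (fun i => (CK ^ q) (MvPowerSeries.X i)) jM (K i)
        rw [← h2, h1, pow_succ, AlgHom.mul_apply]
        congr 1
        rw [hCK, CS_X]
    rw [hiter, hone]
    rfl
  · intro i
    have h1 := congrArg (fun F => F (MvPowerSeries.X i)) hrevK
    simp only [AlgHom.comp_apply] at h1
    rw [hCF, CS_X, hCK, CS_X, CS_apply, CS_apply,
      MvPowerSeries.subst_comp_subst_apply (hasSubst_of jK) (hasSubst_of jF)] at h1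
    exact h1

end ps

end Helpers



end Pool.Agent.H92Rev
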