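import Mathlib

set_option autoImplicit false

namespace Pool.Agent.H92Rev

open Module Module.End

/-- A finite order matrix commuting with a diagonal matrix `E` is diagonalised by a matrix that
commutes with `E` as well. -/
theorem diag_commuting {ι : Type} [Fintype ι] [DecidableEq ι] (e : ι → ℂ) (A : Matrix ι ι ℂ)
    (N : ℕ) (hN : 0 < N) (h : A ^ N = 1)
    (hc : A * Matrix.diagonal e = Matrix.diagonal e * A) :
    ∃ (P P' : Matrix ι ι ℂ) (d : ι → ℂ), P * P' = 1 ∧ P' * P = 1 ∧
      A * P = P * Matrix.diagonal d ∧ P * Matrix.diagonal e = Matrix.diagonal e * P := by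
  classical
  have hL0 : ∀ i j, e i ≠ e j → A i j = 0 := by
    intro i j hij
    have := congrFun (congrFun hc i) j
    rw [Matrix.mul_diagonal, Matrix.diagonal_mul] at this
    have h2 : (e j - e i) * A i j = 0 := by linear_combination this
    rcases mul_eq_zero.1 h2 with h3 | h3
    · exact absurd (sub_eq_zero.1 h3).symm hij
    · exact h3
  set f : End ℂ (ι → ℂ) := Matrix.toLin' A with hf
  have hfN : f ^ N = 1 := by
    rw [hf, ← Matrix.toLin'_pow, h, Matrix.toLin'_one]
    rfl
  have hss : f.IsSemisimple := by
    apply Module.End.isSemisimple_of_squarefree_aeval_eq_zero (p := Polynomial.X ^ N - 1)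
    · apply Polynomial.Separable.squarefree
      have := Polynomial.separable_X_pow_sub_C (F := ℂ) (n := N) 1 (by exact_mod_cast hN.ne') one_ne_zero
      simpa using this
    · simp [hfN]
  have htop : ⨆ μ, f.eigenspace μ = ⊤ := hss.iSup_eigenspace_eq_top
  set t : Set (ι → ℂ) := {v | ∃ μ ν : ℂ, f v = μ • v ∧ ∀ i, e i * v i = ν * v i} with ht
  have hspan : Submodule.span ℂ t = ⊤ := by
    rw [eq_top_iff, ← htop, iSup_le_iff]
    intro μ v hv
    rw [Module.End.mem_eigenspace_iff] at hv
    have hsum : v = ∑ ν ∈ Finset.univ.image e, fun i => if e i = ν then v i else 0 := by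
      funext i
      rw [Finset.sum_apply, Finset.sum_ite_eq, if_pos (Finset.mem_image_of_mem e (Finset.mem_univ i))]
    rw [hsum]
    apply Submodule.sum_mem
    intro ν _
    apply Submodule.subset_span
    refine ⟨μ, ν, ?_, ?_⟩
    · funext i
      have h1 := congrFun hv i
      rw [hf, Matrix.toLin'_apply, Matrix.mulVec, dotProduct, Pi.smul_apply, smul_eq_mul] at h1
      rw [hf, Matrix.toLin'_apply, Matrix.mulVec, dotProduct, Pi.smul_apply, smul_eq_mul]
      by_cases hi : e i = ν
      · rw [if_pos hi, ← h1]
        apply Finset.sum_congr rfl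
        intro j _
        by_cases hj : e j = ν
        · rw [if_pos hj]
        · rw [hL0 i j (by rw [hi]; exact fun hh => hj hh.symm)]
          ring
      · rw [if_neg hi, mul_zero]
        apply Finset.sum_eq_zero
        intro j _
        by_cases hj : e j = ν
        · rw [hL0 i j (by rw [hj]; exact hi), zero_mul]
        · rw [if_neg hj, mul_zero]
    · intro i
      by_cases hi : e i = ν
      · simp only [hi]
      · simp only [if_neg hi, mul_zero]
  obtain ⟨b, hbt, hbs, hbl⟩ := exists_linearIndependent ℂ t
  rw [hspan] at hbs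
  let B : Basis b ℂ (ι → ℂ) := Basis.mk hbl (by
    rw [Subtype.range_coe, hbs])
  have hcard : Nonempty (b ≃ ι) := by
    have : Finite b := Module.Finite.finite_basis B
    have : Fintype b := Fintype.ofFinite b
    refine ⟨Fintype.equivOfCardEq ?_⟩
    rw [← Module.finrank_eq_card_basis B, Module.finrank_fintype_fun_eq_card]
  obtain ⟨eq⟩ := hcard
  let B' : Basis ι ℂ (ι → ℂ) := B.reindex eq
  have hB' : ∀ i, ∃ μ ν : ℂ, f (B' i) = μ • B' i ∧ ∀ k, e k * (B' i) k = ν * (B' i) k := by
    intro i
    have : B' i = ((eq.symm i : b) : ι → ℂ) := by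
      simp [B', B]
    rw [this]
    exact hbt (eq.symm i).2
  choose d ν hd hν using hB'
  set P := (Pi.basisFun ℂ ι).toMatrix B' with hP
  set P' := B'.toMatrix (Pi.basisFun ℂ ι) with hP'
  have hPP' : P * P' = 1 := Basis.toMatrix_mul_toMatrix_flip _ _
  have hP'P : P' * P = 1 := Basis.toMatrix_mul_toMatrix_flip _ _
  have hPe : ∀ i j, P i j = B' j i := by
    intro i j
    rw [hP]
    simp only [Basis.toMatrix_apply, Pi.basisFun_repr]
  have hAP : A * P = P * Matrix.diagonal d := by
    ext i j
    have h1 := congrFun (hd j) i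
    rw [hf, Matrix.toLin'_apply] at h1
    rw [Matrix.mul_diagonal, Matrix.mul_apply]
    simp only [hPe]
    rw [Matrix.mulVec, dotProduct] at h1
    rw [h1, Pi.smul_apply, smul_eq_mul, mul_comm]
  have hEP : Matrix.diagonal e * P = P * Matrix.diagonal ν := by
    ext i j
    rw [Matrix.mul_diagonal, Matrix.diagonal_mul, hPe, hν, mul_comm]
  have hchar : (Matrix.diagonal e).charpoly = (Matrix.diagonal ν).charpoly := by
    have h1 : Matrix.diagonal e = P * (Matrix.diagonal ν * P') := by
      rw [← Matrix.mul_assoc, ← hEP, Matrix.mul_assoc, hPP', Matrix.mul_one]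
    rw [h1, Matrix.charpoly_mul_comm, Matrix.mul_assoc, hP'P, Matrix.mul_one]
  have hmul : (Finset.univ.val.map e : Multiset ℂ) = Finset.univ.val.map ν := by
    have h1 := congrArg Polynomial.roots hchar
    have h2 : ∀ g : ι → ℂ, (Matrix.diagonal g).charpoly.roots = Finset.univ.val.map g := by
      intro g
      rw [Matrix.charpoly_diagonal]
      rw [Polynomial.roots_prod _ _ (by
        rw [Finset.prod_ne_zero_iff]
        intro i _
        exact Polynomial.X_sub_C_ne_zero _)]
      simp only [Polynomial.roots_X_sub_C]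
      rw [Multiset.bind_singleton]
    rw [h2, h2] at h1
    exact h1
  obtain ⟨σ, hσ⟩ : ∃ σ : Equiv.Perm ι, e = ν ∘ σ := by
    have hcount : ∀ (g : ι → ℂ) (c : ℂ), Fintype.card {i // g i = c} =
        Multiset.count c (Finset.univ.val.map g) := by
      intro g c
      rw [Multiset.count_map, Fintype.card_subtype]
      show (Finset.univ.filter fun i => g i = c).card = (Finset.univ.filter fun i => c = g i).card
      congr 1
      ext i
      simp [eq_comm]
    have hfib : ∀ c : ℂ, Nonempty ({i // e i = c} ≃ {i // ν i = c}) := by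
      intro c
      refine ⟨Fintype.equivOfCardEq ?_⟩
      rw [hcount, hcount, hmul]
    refine ⟨Equiv.ofFiberEquiv fun c => (hfib c).some, ?_⟩
    funext i
    exact (Equiv.ofFiberEquiv_map (fun c => (hfib c).some) i).symm
  refine ⟨P.submatrix id σ, P'.submatrix σ id, d ∘ σ, ?_, ?_, ?_, ?_⟩
  · rw [Matrix.submatrix_mul_equiv, hPP']
    ext i j; simp [Matrix.one_apply]
  · ext i j
    have := congrFun (congrFun hP'P (σ i)) (σ j)
    rw [Matrix.mul_apply] at this
    rw [Matrix.mul_apply]
    simp only [Matrix.submatrix_apply, id]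
    rw [this]
    simp [Matrix.one_apply]
  · ext i j
    have := congrFun (congrFun hAP i) (σ j)
    rw [Matrix.mul_diagonal, Matrix.mul_apply] at this
    rw [Matrix.mul_diagonal, Matrix.mul_apply]
    simp only [Matrix.submatrix_apply, id, Function.comp]
    exact this
  · ext i j
    have := congrFun (congrFun hEP i) (σ j)
    rw [Matrix.mul_diagonal, Matrix.diagonal_mul] at this
    rw [Matrix.mul_diagonal, Matrix.diagonal_mul]
    simp only [Matrix.submatrix_apply, id, hσ, Function.comp] at this ⊢
    exact this.symm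

end Pool.Agent.H92Rev
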