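import Mathlib

set_option autoImplicit false
open Filter Topology

namespace Pool.Agent.H92Rev

/-- the multiplier -/
noncomputable def Am (x y : ℂ) : ℂ :=
  (1 - (2 + y / 2) * x) * (1 + x) ^ 2 / ((1 + 2 * x) * (1 - x) ^ 2)

noncomputable def fM (p : Fin 3 → ℂ) : Fin 3 → ℂ :=
  ![p 0 / (1 + p 0 * p 1), p 1, Am (p 0) (p 1) * p 2]

noncomputable def fI (p : Fin 3 → ℂ) : Fin 3 → ℂ :=
  ![p 0 / (1 - p 0 * p 1), p 1,
    (1 - p 0 * p 1 + 2 * p 0) * (1 - p 0 * p 1 - p 0) ^ 2 /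
      ((1 - p 0 * p 1 - 2 * p 0 - p 0 * p 1 / 2) * (1 - p 0 * p 1 + p 0) ^ 2) * p 2]

noncomputable def hM (p : Fin 3 → ℂ) : Fin 3 → ℂ :=
  ![(2 + p 1) * p 0 / (p 0 * p 1 - 2), 2 * p 1 / (2 + p 1),
    p 2 * (1 + p 0) ^ 2 / ((1 + 2 * p 0) * (1 + 2 * p 0 + p 0 * p 1))]

noncomputable def hI (p : Fin 3 → ℂ) : Fin 3 → ℂ :=
  ![p 0 * (2 - p 1) / (p 0 * p 1 - 2), 2 * p 1 / (2 - p 1),
    p 2 * (4 * p 0 - 2 - p 0 * p 1) * (p 0 * p 1 + 4 * p 0 - 2) / (2 * p 0 - 2) ^ 2]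

variable {E : Type*} [NormedAddCommGroup E] [NormedSpace ℂ E]

theorem vec3_analytic {u v w : E → ℂ} {e : E} (hu : AnalyticAt ℂ u e) (hv : AnalyticAt ℂ v e)
    (hw : AnalyticAt ℂ w e) : AnalyticAt ℂ (fun e => (![u e, v e, w e] : Fin 3 → ℂ)) e := by
  have h : AnalyticAt ℂ (fun e => fun i : Fin 3 => (![u, v, w] : Fin 3 → E → ℂ) i e) e := by
    rw [analyticAt_pi_iff]
    intro i
    fin_cases i
    · exact hu
    · exact hv
    · exact hw
  have h2 : (fun e => (![u e, v e, w e] : Fin 3 → ℂ)) =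
      (fun e => fun i : Fin 3 => (![u, v, w] : Fin 3 → E → ℂ) i e) := by
    funext e i
    fin_cases i <;> rfl
  rw [h2]
  exact h

theorem coord_analytic (i : Fin 3) (p : Fin 3 → ℂ) : AnalyticAt ℂ (fun p : Fin 3 → ℂ => p i) p :=
  (ContinuousLinearMap.proj (R := ℂ) (φ := fun _ : Fin 3 => ℂ) i).analyticAt p

theorem Am_comp {u v : E → ℂ} {e : E} (hu : AnalyticAt ℂ u e) (hv : AnalyticAt ℂ v e)
    (h1 : 1 + 2 * u e ≠ 0) (h2 : 1 - u e ≠ 0) :
    AnalyticAt ℂ (fun e => Am (u e) (v e)) e := by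
  unfold Am
  have h3 : (1 + 2 * u e) * (1 - u e) ^ 2 ≠ 0 := mul_ne_zero h1 (pow_ne_zero 2 h2)
  fun_prop (disch := assumption)

theorem fM_analytic : AnalyticAt ℂ fM 0 := by
  unfold fM
  have c0 := coord_analytic 0 0
  have c1 := coord_analytic 1 0
  have c2 := coord_analytic 2 0
  apply vec3_analytic
  · exact c0.fun_div (analyticAt_const.fun_add (c0.fun_mul c1)) (by simp)
  · exact c1
  · exact (Am_comp c0 c1 (by simp) (by simp)).fun_mul c2

theorem aux1 {x y z : E → ℂ} {e : E} (hx : AnalyticAt ℂ x e) (hy : AnalyticAt ℂ y e)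
    (hz : AnalyticAt ℂ z e) (hx0 : x e = 0) (hy0 : y e = 0) :
    AnalyticAt ℂ (fun e => (1 - x e * y e + 2 * x e) * (1 - x e * y e - x e) ^ 2 /
      ((1 - x e * y e - 2 * x e - x e * y e / 2) * (1 - x e * y e + x e) ^ 2) * z e) e := by
  have h3 : ((1 - x e * y e - 2 * x e - x e * y e / 2) * (1 - x e * y e + x e) ^ 2) ≠ 0 := by
    rw [hx0, hy0]; simp
  fun_prop (disch := assumption)

theorem aux2 {x y z : E → ℂ} {e : E} (hx : AnalyticAt ℂ x e) (hy : AnalyticAt ℂ y e)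
    (hz : AnalyticAt ℂ z e) (hx0 : x e = 0) (hy0 : y e = 0) :
    AnalyticAt ℂ (fun e => z e * (1 + x e) ^ 2 / ((1 + 2 * x e) * (1 + 2 * x e + x e * y e))) e := by
  have h3 : ((1 + 2 * x e) * (1 + 2 * x e + x e * y e)) ≠ 0 := by
    rw [hx0, hy0]; simp
  fun_prop (disch := assumption)

theorem aux3 {x y z : E → ℂ} {e : E} (hx : AnalyticAt ℂ x e) (hy : AnalyticAt ℂ y e)
    (hz : AnalyticAt ℂ z e) (hx0 : x e = 0) :
    AnalyticAt ℂ (fun e => z e * (4 * x e - 2 - x e * y e) * (x e * y e + 4 * x e - 2) /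
      (2 * x e - 2) ^ 2) e := by
  have h3 : (2 * x e - 2) ^ 2 ≠ 0 := by
    rw [hx0]; simp
  fun_prop (disch := assumption)

theorem aux4 {x y : E → ℂ} {e : E} (hx : AnalyticAt ℂ x e) (hy : AnalyticAt ℂ y e)
    (hx0 : x e = 0) (hy0 : y e = 0) :
    AnalyticAt ℂ (fun e => (2 + y e) * x e / (x e * y e - 2)) e := by
  have h3 : (x e * y e - 2) ≠ 0 := by
    rw [hx0, hy0]; simp
  fun_prop (disch := assumption)

theorem aux5 {x y : E → ℂ} {e : E} (hx : AnalyticAt ℂ x e) (hy : AnalyticAt ℂ y e)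
    (hx0 : x e = 0) (hy0 : y e = 0) :
    AnalyticAt ℂ (fun e => x e * (2 - y e) / (x e * y e - 2)) e := by
  have h3 : (x e * y e - 2) ≠ 0 := by
    rw [hx0, hy0]; simp
  fun_prop (disch := assumption)

theorem aux6 {y : E → ℂ} {e : E} (hy : AnalyticAt ℂ y e) (hy0 : y e = 0) :
    AnalyticAt ℂ (fun e => 2 * y e / (2 + y e)) e := by
  have h3 : (2 + y e) ≠ 0 := by
    rw [hy0]; simp
  fun_prop (disch := assumption)

theorem aux7 {y : E → ℂ} {e : E} (hy : AnalyticAt ℂ y e) (hy0 : y e = 0) :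
    AnalyticAt ℂ (fun e => 2 * y e / (2 - y e)) e := by
  have h3 : (2 - y e) ≠ 0 := by
    rw [hy0]; simp
  fun_prop (disch := assumption)

theorem fI_analytic : AnalyticAt ℂ fI 0 := by
  unfold fI
  have c0 := coord_analytic 0 0
  have c1 := coord_analytic 1 0
  have c2 := coord_analytic 2 0
  apply vec3_analytic
  · exact c0.fun_div (analyticAt_const.fun_sub (c0.fun_mul c1)) (by simp)
  · exact c1
  · exact aux1 c0 c1 c2 rfl rfl

theorem hM_analytic : AnalyticAt ℂ hM 0 := by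
  unfold hM
  have c0 := coord_analytic 0 0
  have c1 := coord_analytic 1 0
  have c2 := coord_analytic 2 0
  apply vec3_analytic
  · exact aux4 c0 c1 rfl rfl
  · exact aux6 c1 rfl
  · exact aux2 c0 c1 c2 rfl rfl

theorem hI_analytic : AnalyticAt ℂ hI 0 := by
  unfold hI
  have c0 := coord_analytic 0 0
  have c1 := coord_analytic 1 0
  have c2 := coord_analytic 2 0
  apply vec3_analytic
  · exact aux5 c0 c1 rfl rfl
  · exact aux7 c1 rfl
  · exact aux3 c0 c1 c2 rfl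

theorem fM_zero : fM 0 = 0 := by
  funext i; fin_cases i <;> simp [fM]

theorem fI_zero : fI 0 = 0 := by
  funext i; fin_cases i <;> simp [fI]

theorem hM_zero : hM 0 = 0 := by
  funext i; fin_cases i <;> simp [hM]

theorem hI_zero : hI 0 = 0 := by
  funext i; fin_cases i <;> simp [hI]

/-- a continuous function nonzero at `0` is nonzero near `0` -/
theorem ev_ne (u : (Fin 3 → ℂ) → ℂ) (hu : Continuous u) (h : u 0 ≠ 0) :
    ∀ᶠ p in 𝓝 (0 : Fin 3 → ℂ), u p ≠ 0 := hu.continuousAt.eventually_ne h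

theorem fI_fM : fI ∘ fM =ᶠ[𝓝 (0 : Fin 3 → ℂ)] id := by
  filter_upwards [ev_ne (fun p => 1 + p 0 * p 1) (by fun_prop) (by simp),
    ev_ne (fun p => 1 + 2 * p 0) (by fun_prop) (by simp),
    ev_ne (fun p => 1 - p 0) (by fun_prop) (by simp),
    ev_ne (fun p => 1 - (2 + p 1 / 2) * p 0) (by fun_prop) (by simp),
    ev_ne (fun p => 1 + p 0) (by fun_prop) (by simp)] with p h1 h2 h3 h4 h5
  have e1 : 1 - p 0 / (1 + p 0 * p 1) * p 1 = 1 / (1 + p 0 * p 1) := by
    field_simp; ring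
  funext i
  fin_cases i
  · simp only [fI, fM, Function.comp, id, Matrix.cons_val_zero, Matrix.cons_val_one,
      Matrix.cons_val, Fin.zero_eta]
    rw [e1]; field_simp
  · simp [fI, fM]
  · simp only [fI, fM, Am, Function.comp, id, Matrix.cons_val_zero, Matrix.cons_val_one,
      Matrix.cons_val, Fin.reduceFinMk]
    rw [e1]
    have e2 : 1 / (1 + p 0 * p 1) + 2 * (p 0 / (1 + p 0 * p 1)) =
      (1 + 2 * p 0) / (1 + p 0 * p 1) := by field_simp
    have e3 : 1 / (1 + p 0 * p 1) - (p 0 / (1 + p 0 * p 1)) =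
      (1 - p 0) / (1 + p 0 * p 1) := by field_simp
    have e4 : 1 / (1 + p 0 * p 1) - 2 * (p 0 / (1 + p 0 * p 1)) - p 0 / (1 + p 0 * p 1) * p 1 / 2 =
      (1 - (2 + p 1 / 2) * p 0) / (1 + p 0 * p 1) := by field_simp; ring
    have e5 : 1 / (1 + p 0 * p 1) + (p 0 / (1 + p 0 * p 1)) =
      (1 + p 0) / (1 + p 0 * p 1) := by field_simp
    rw [e2, e3, e4, e5]
    have h4' : 2 - p 0 * (2 ^ 2 + p 1) ≠ 0 := by
      intro h; apply h4; linear_combination h / 2
    field_simp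

theorem fM_fI : fM ∘ fI =ᶠ[𝓝 (0 : Fin 3 → ℂ)] id := by
  filter_upwards [ev_ne (fun p => 1 - p 0 * p 1) (by fun_prop) (by simp),
    ev_ne (fun p => 1 - p 0 * p 1 + 2 * p 0) (by fun_prop) (by simp),
    ev_ne (fun p => 1 - p 0 * p 1 - p 0) (by fun_prop) (by simp),
    ev_ne (fun p => 1 - p 0 * p 1 - 2 * p 0 - p 0 * p 1 / 2) (by fun_prop) (by simp),
    ev_ne (fun p => 1 - p 0 * p 1 + p 0) (by fun_prop) (by simp)] with p h1 h2 h3 h4 h5
  have e1 : 1 + p 0 / (1 - p 0 * p 1) * p 1 = 1 / (1 - p 0 * p 1) := by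
    rw [div_mul_eq_mul_div, eq_div_iff h1, add_mul, div_mul_cancel₀ _ h1]; ring
  funext i
  fin_cases i
  · simp only [fI, fM, Function.comp, id, Matrix.cons_val_zero, Matrix.cons_val_one,
      Matrix.cons_val, Fin.zero_eta]
    rw [e1]; field_simp
  · simp [fI, fM]
  · simp only [fI, fM, Am, Function.comp, id, Matrix.cons_val_zero, Matrix.cons_val_one,
      Matrix.cons_val, Fin.reduceFinMk]
    generalize hD : 1 - p 0 * p 1 = D at *
    have hD' : p 0 * p 1 = 1 - D := by rw [← hD]; ring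
    have e2 : 1 + 2 * (p 0 / D) = (D + 2 * p 0) / D := by field_simp
    have e3 : 1 - (p 0 / D) = (D - p 0) / D := by field_simp
    have e4 : 1 - (2 + p 1 / 2) * (p 0 / D) =
      (D - 2 * p 0 - p 0 * p 1 / 2) / D := by rw [eq_div_iff h1]; field_simp; ring
    have e5 : 1 + (p 0 / D) = (D + p 0) / D := by field_simp
    rw [e2, e3, e4, e5]
    generalize D - 2 * p 0 - p 0 * p 1 / 2 = X4 at *
    generalize D + 2 * p 0 = X2 at *
    generalize D - p 0 = X3 at *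
    generalize D + p 0 = X5 at *
    field_simp

theorem hI_hM : hI ∘ hM =ᶠ[𝓝 (0 : Fin 3 → ℂ)] id := by
  filter_upwards [ev_ne (fun p => p 0 * p 1 - 2) (by fun_prop) (by simp),
    ev_ne (fun p => 2 + p 1) (by fun_prop) (by simp),
    ev_ne (fun p => 1 + 2 * p 0) (by fun_prop) (by simp),
    ev_ne (fun p => 1 + 2 * p 0 + p 0 * p 1) (by fun_prop) (by simp),
    ev_ne (fun p => 1 + p 0) (by fun_prop) (by simp)] with p h1 h2 h3 h4 h5
  obtain ⟨D, hD⟩ : ∃ D, D = p 0 * p 1 - 2 := ⟨_, rfl⟩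
  have h1' : D ≠ 0 := by rw [hD]; exact h1
  have hxy : p 0 * p 1 = D + 2 := by rw [hD]; ring
  have e1 : (2 + p 1) * p 0 / D * (2 * p 1 / (2 + p 1)) - 2 = 4 / D := by
    rw [eq_div_iff h1']
    field_simp
    linear_combination 2 * hxy
  have e2 : 2 - 2 * p 1 / (2 + p 1) = 4 / (2 + p 1) := by
    field_simp; ring
  funext i
  fin_cases i
  · simp only [hI, hM, Function.comp, id, Matrix.cons_val_zero, Matrix.cons_val_one,
      Matrix.cons_val, Fin.zero_eta]
    rw [← hD, e1, e2]; field_simp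
  · simp only [hI, hM, Function.comp, id, Matrix.cons_val_zero, Matrix.cons_val_one,
      Matrix.cons_val, Fin.mk_one]
    rw [e2]; field_simp; ring
  · simp only [hI, hM, Function.comp, id, Matrix.cons_val_zero, Matrix.cons_val_one,
      Matrix.cons_val, Fin.reduceFinMk]
    rw [← hD]
    have e3 : 4 * ((2 + p 1) * p 0 / D) - 2 -
      (2 + p 1) * p 0 / D * (2 * p 1 / (2 + p 1)) =
      4 * (1 + 2 * p 0) / D := by
      rw [eq_div_iff h1']
      field_simp
      linear_combination 2 * hxy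
    have e4 : (2 + p 1) * p 0 / D * (2 * p 1 / (2 + p 1)) +
      4 * ((2 + p 1) * p 0 / D) - 2 =
      4 * (1 + 2 * p 0 + p 0 * p 1) / D := by
      rw [eq_div_iff h1']
      field_simp
      linear_combination 2 * hxy
    have e5 : 2 * ((2 + p 1) * p 0 / D) - 2 =
      4 * (1 + p 0) / D := by
      rw [eq_div_iff h1']
      field_simp
      linear_combination 2 * hxy
    rw [e3, e4, e5]
    generalize 1 + 2 * p 0 + p 0 * p 1 = X4 at *
    generalize 1 + 2 * p 0 = X3 at *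
    generalize 1 + p 0 = X5 at *
    field_simp

theorem hM_hI : hM ∘ hI =ᶠ[𝓝 (0 : Fin 3 → ℂ)] id := by
  filter_upwards [ev_ne (fun p => p 0 * p 1 - 2) (by fun_prop) (by simp),
    ev_ne (fun p => 2 - p 1) (by fun_prop) (by simp),
    ev_ne (fun p => 4 * p 0 - 2 - p 0 * p 1) (by fun_prop) (by simp),
    ev_ne (fun p => p 0 * p 1 + 4 * p 0 - 2) (by fun_prop) (by simp),
    ev_ne (fun p => 2 * p 0 - 2) (by fun_prop) (by simp)] with p h1 h2 h3 h4 h5
  obtain ⟨D, hD⟩ : ∃ D, D = p 0 * p 1 - 2 := ⟨_, rfl⟩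
  have h1' : D ≠ 0 := by rw [hD]; exact h1
  have hxy : p 0 * p 1 = D + 2 := by rw [hD]; ring
  have e1 : p 0 * (2 - p 1) / D * (2 * p 1 / (2 - p 1)) - 2 = 4 / D := by
    rw [eq_div_iff h1']
    field_simp
    linear_combination 2 * hxy
  have e2 : 2 + 2 * p 1 / (2 - p 1) = 4 / (2 - p 1) := by
    field_simp; ring
  funext i
  fin_cases i
  · simp only [hI, hM, Function.comp, id, Matrix.cons_val_zero, Matrix.cons_val_one,
      Matrix.cons_val, Fin.zero_eta]
    rw [← hD, e1, e2]; field_simp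
  · simp only [hI, hM, Function.comp, id, Matrix.cons_val_zero, Matrix.cons_val_one,
      Matrix.cons_val, Fin.mk_one]
    rw [e2]; field_simp; ring
  · simp only [hI, hM, Function.comp, id, Matrix.cons_val_zero, Matrix.cons_val_one,
      Matrix.cons_val, Fin.reduceFinMk]
    rw [← hD]
    have e3 : 1 + p 0 * (2 - p 1) / D = (2 * p 0 - 2) / D := by
      rw [eq_div_iff h1']
      field_simp
      linear_combination -hxy
    have e4 : 1 + 2 * (p 0 * (2 - p 1) / D) = (4 * p 0 - 2 - p 0 * p 1) / D := by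
      rw [eq_div_iff h1']
      field_simp
      linear_combination -hxy
    have e5 : 1 + 2 * (p 0 * (2 - p 1) / D) +
      p 0 * (2 - p 1) / D * (2 * p 1 / (2 - p 1)) =
      (p 0 * p 1 + 4 * p 0 - 2) / D := by
      rw [eq_div_iff h1']
      field_simp
      linear_combination -hxy
    rw [e5, e3, e4]
    generalize 2 * p 0 - 2 = X5 at *
    generalize 4 * p 0 - 2 - p 0 * p 1 = X3 at *
    generalize p 0 * p 1 + 4 * p 0 - 2 = X4 at *
    field_simp

theorem rev_rel : fM ∘ hM ∘ fM =ᶠ[𝓝 (0 : Fin 3 → ℂ)] hM := by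
  filter_upwards [ev_ne (fun p => 1 + p 0 * p 1) (by fun_prop) (by simp),
    ev_ne (fun p => p 0 * p 1 - 2) (by fun_prop) (by simp),
    ev_ne (fun p => - 2 - p 0 * p 1) (by fun_prop) (by simp),
    ev_ne (fun p => 2 + p 1) (by fun_prop) (by simp),
    ev_ne (fun p => 1 + 2 * p 0) (by fun_prop) (by simp),
    ev_ne (fun p => 1 - p 0) (by fun_prop) (by simp),
    ev_ne (fun p => 1 + p 0) (by fun_prop) (by simp),
    ev_ne (fun p => 1 - (2 + p 1 / 2) * p 0) (by fun_prop) (by simp),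
    ev_ne (fun p => 1 + 2 * p 0 + p 0 * p 1) (by fun_prop) (by simp),
    ev_ne (fun p => 1 + 2 * p 0 + 2 * (p 0 * p 1)) (by fun_prop) (by simp),
    ev_ne (fun p => 1 + p 0 + p 0 * p 1) (by fun_prop) (by simp)]
    with p h1 h2 h3 h4 h5 h6 h7 h8 h9 h10 h11
  obtain ⟨G, hG⟩ : ∃ G, G = - 2 - p 0 * p 1 := ⟨_, rfl⟩
  have h3' : G ≠ 0 := by rw [hG]; exact h3
  obtain ⟨E, hE⟩ : ∃ E, E = 1 + p 0 * p 1 := ⟨_, rfl⟩
  have h1' : E ≠ 0 := by rw [hE]; exact h1
  obtain ⟨D, hD⟩ : ∃ D, D = p 0 * p 1 - 2 := ⟨_, rfl⟩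
  have h2' : D ≠ 0 := by rw [hD]; exact h2
  -- first coordinate of `hM (fM p)`
  have e1 : (2 + p 1) * (p 0 / E) / (p 0 / E * p 1 - 2) = (2 + p 1) * p 0 / G := by
    have : p 0 / E * p 1 - 2 = G / E := by
      rw [eq_div_iff h1', sub_mul, mul_right_comm, div_mul_cancel₀ _ h1', hE, hG]; ring
    rw [this]; field_simp
  have e2 : 1 + (2 + p 1) * p 0 / G * (2 * p 1 / (2 + p 1)) = D / G := by
    rw [eq_div_iff h3']
    field_simp
    rw [hG, hD]; ring
  funext i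
  fin_cases i
  · simp only [fM, hM, Function.comp, Matrix.cons_val_zero, Matrix.cons_val_one,
      Matrix.cons_val, Fin.zero_eta]
    rw [← hE, e1, e2, ← hD]; field_simp
  · simp [fM, hM]
  · simp only [fM, hM, Am, Function.comp, Matrix.cons_val_zero, Matrix.cons_val_one,
      Matrix.cons_val, Fin.reduceFinMk]
    rw [← hE, e1]
    have e3 : 1 - (2 + 2 * p 1 / (2 + p 1) / 2) * ((2 + p 1) * p 0 / G) =
        -2 * (1 + 2 * p 0 + 2 * (p 0 * p 1)) / G := by
      rw [eq_div_iff h3']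
      field_simp
      rw [hG]; ring
    have e4 : 1 + (2 + p 1) * p 0 / G = -2 * (1 - p 0) / G := by
      rw [eq_div_iff h3']
      field_simp
      rw [hG]; ring
    have e5 : 1 + 2 * ((2 + p 1) * p 0 / G) = -2 * (1 - (2 + p 1 / 2) * p 0) / G := by
      rw [eq_div_iff h3']
      field_simp
      rw [hG]; ring
    have e6 : 1 - (2 + p 1) * p 0 / G = -2 * (1 + p 0 + p 0 * p 1) / G := by
      rw [eq_div_iff h3']
      field_simp
      rw [hG]; ring
    have e7 : 1 + p 0 / E = (1 + p 0 + p 0 * p 1) / E := by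
      rw [eq_div_iff h1']
      field_simp
      rw [hE]; ring
    have e8 : 1 + 2 * (p 0 / E) = (1 + 2 * p 0 + p 0 * p 1) / E := by
      rw [eq_div_iff h1']
      field_simp
      rw [hE]; ring
    have e9 : (1 + 2 * p 0 + p 0 * p 1) / E + p 0 / E * p 1 =
        (1 + 2 * p 0 + 2 * (p 0 * p 1)) / E := by
      rw [eq_div_iff h1']
      field_simp
      ring
    rw [e3, e4, e5, e6, e7, e8, e9]
    generalize 1 + 2 * p 0 + 2 * (p 0 * p 1) = X10 at *
    generalize 1 + p 0 + p 0 * p 1 = X11 at *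
    generalize 1 + 2 * p 0 + p 0 * p 1 = X9 at *
    generalize 1 - (2 + p 1 / 2) * p 0 = X8 at *
    generalize 1 + 2 * p 0 = X5 at *
    generalize 1 + p 0 = X7 at *
    generalize 1 - p 0 = X6 at *
    field_simp

end Pool.Agent.H92Rev
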