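import Pool.Agent.H92Rev.Base

set_option autoImplicit false

namespace Pool.Agent.H92Rev

/-- matrix of the linear part of a tuple of power series -/
noncomputable def linMat {n : ℕ} (F : Fin n → MvPowerSeries (Fin n) ℂ) : Matrix (Fin n) (Fin n) ℂ :=
  Matrix.of fun i j => MvPowerSeries.coeff (Finsupp.single j 1) (F i)

/-- A formally invertible formal map in `n` variables: an `n`-tuple of power series with zero
constant terms and invertible linear part. -/
@[ext] structure FG (n : ℕ) where
  /-- the components -/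
  toFun : Fin n → MvPowerSeries (Fin n) ℂ
  zero' : ∀ i, MvPowerSeries.constantCoeff (toFun i) = 0
  det' : (linMat toFun).det ≠ 0

/-- formal composition: `comp F G = F ∘ G`. -/
noncomputable def comp {n : ℕ} (F G : Fin n → MvPowerSeries (Fin n) ℂ) :
    Fin n → MvPowerSeries (Fin n) ℂ := fun i => MvPowerSeries.subst G (F i)

theorem mem_J1_iff {n : ℕ} {a : PS n} : a ∈ J n 1 ↔ MvPowerSeries.constantCoeff a = 0 := by
  constructor
  · intro h
    have := h 0 (by simp)
    simpa using this
  · intro h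
    exact coeff_zero_mem h

theorem FG.mem {n : ℕ} (F : FG n) (i : Fin n) : F.toFun i ∈ J n 1 := mem_J1_iff.2 (F.zero' i)

theorem comp_mem {n : ℕ} {F G : Fin n → PS n} (hF : ∀ i, F i ∈ J n 1) (hG : ∀ i, G i ∈ J n 1)
    (i : Fin n) : comp F G i ∈ J n 1 := subst_J hG (hF i)

theorem comp_assoc' {n : ℕ} {F G H : Fin n → PS n} (hG : ∀ i, G i ∈ J n 1)
    (hH : ∀ i, H i ∈ J n 1) : comp (comp F G) H = comp F (comp G H) := by
  funext i
  unfold comp
  rw [MvPowerSeries.subst_comp_subst_apply (hasSubst_of hG) (hasSubst_of hH)]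

theorem X_comp {n : ℕ} {G : Fin n → PS n} (hG : ∀ i, G i ∈ J n 1) :
    comp (fun i => (MvPowerSeries.X i : PS n)) G = G := by
  funext i
  unfold comp
  rw [MvPowerSeries.subst_X (hasSubst_of hG)]

theorem comp_X {n : ℕ} (F : Fin n → PS n) :
    comp F (fun i => (MvPowerSeries.X i : PS n)) = F := by
  funext i
  unfold comp
  have := MvPowerSeries.subst_self (σ := Fin n) (R := ℂ)
  exact congrFun this (F i)

/-- linear tuple -/
noncomputable def linT {n : ℕ} (M : Matrix (Fin n) (Fin n) ℂ) : Fin n → MvPowerSeries (Fin n) ℂ :=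
  fun i => ∑ j, MvPowerSeries.C (M i j) * MvPowerSeries.X j

theorem coeff_linT {n : ℕ} (M : Matrix (Fin n) (Fin n) ℂ) (i j : Fin n) :
    MvPowerSeries.coeff (Finsupp.single j 1) (linT M i) = M i j := by
  classical
  unfold linT
  rw [map_sum]
  rw [Finset.sum_eq_single j]
  · rw [MvPowerSeries.coeff_C_mul, MvPowerSeries.coeff_X, if_pos rfl, mul_one]
  · intro b _ hb
    rw [MvPowerSeries.coeff_C_mul, MvPowerSeries.coeff_X, if_neg, mul_zero]
    intro h
    exact hb ((Finsupp.single_left_injective one_ne_zero h).symm)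
  · intro h
    exact absurd (Finset.mem_univ j) h

theorem linMat_linT {n : ℕ} (M : Matrix (Fin n) (Fin n) ℂ) : linMat (linT M) = M := by
  ext i j
  exact coeff_linT M i j

theorem linT_mem {n : ℕ} (M : Matrix (Fin n) (Fin n) ℂ) (i : Fin n) : linT M i ∈ J n 1 := by
  unfold linT
  apply Ideal.sum_mem
  intro j _
  exact Ideal.mul_mem_left _ _ (X_mem_J j)

theorem mem_J2_iff {n : ℕ} {a : PS n} : a ∈ J n 2 ↔ MvPowerSeries.constantCoeff a = 0 ∧
    ∀ j, MvPowerSeries.coeff (Finsupp.single j 1) a = 0 := by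
  constructor
  · intro h
    refine ⟨?_, fun j => h _ (by simp)⟩
    have := h 0 (by simp)
    simpa using this
  · rintro ⟨h0, h1⟩ m hm
    have : m.degree = 0 ∨ m.degree = 1 := by omega
    rcases this with h | h
    · rw [Finsupp.degree_eq_zero_iff] at h
      rw [h]
      simpa using h0
    · obtain ⟨j, hj⟩ : ∃ j, m = Finsupp.single j 1 := by
        exact (Finsupp.sum_eq_one_iff m).1 h
      rw [hj]
      exact h1 j

theorem sub_lin_mem {n : ℕ} {F : Fin n → PS n} (hF : ∀ i, F i ∈ J n 1) (i : Fin n) :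
    F i - linT (linMat F) i ∈ J n 2 := by
  rw [mem_J2_iff]
  constructor
  · rw [map_sub, mem_J1_iff.1 (hF i), mem_J1_iff.1 (linT_mem _ i), sub_zero]
  · intro j
    rw [map_sub, coeff_linT]
    unfold linMat
    simp

theorem comp_linT {n : ℕ} (M : Matrix (Fin n) (Fin n) ℂ) {G : Fin n → PS n}
    (hG : ∀ i, G i ∈ J n 1) (i : Fin n) :
    comp (linT M) G i = ∑ j, MvPowerSeries.C (M i j) * G j := by
  unfold comp linT
  have h := map_sum (MvPowerSeries.substAlgHom (hasSubst_of hG) : PS n →ₐ[ℂ] PS n)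
    (fun j => MvPowerSeries.C (M i j) * (MvPowerSeries.X j : PS n)) Finset.univ
  rw [MvPowerSeries.substAlgHom_apply] at h
  rw [h]
  apply Finset.sum_congr rfl
  intro j _
  rw [map_mul, MvPowerSeries.substAlgHom_X]
  congr 1
  exact AlgHom.commutes (MvPowerSeries.substAlgHom (hasSubst_of hG) : PS n →ₐ[ℂ] PS n) (M i j)

theorem linMat_comp {n : ℕ} {F G : Fin n → PS n} (hF : ∀ i, F i ∈ J n 1)
    (hG : ∀ i, G i ∈ J n 1) : linMat (comp F G) = linMat F * linMat G := by
  ext i j
  have h1 : comp F G i = comp (linT (linMat F)) G i + MvPowerSeries.subst G (F i - linT (linMat F) i) := by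
    unfold comp
    rw [← MvPowerSeries.subst_add (hasSubst_of hG)]
    congr 1
    ring
  have h2 : MvPowerSeries.subst G (F i - linT (linMat F) i) ∈ J n 2 := subst_J hG (sub_lin_mem hF i)
  have h3 := (mem_J2_iff.1 h2).2 j
  show MvPowerSeries.coeff (Finsupp.single j 1) (comp F G i) = _
  rw [h1, map_add, h3, add_zero, comp_linT _ hG, map_sum, Matrix.mul_apply]
  apply Finset.sum_congr rfl
  intro k _
  rw [MvPowerSeries.coeff_C_mul]
  rfl

theorem linMat_X {n : ℕ} : linMat (fun i => (MvPowerSeries.X i : PS n)) = 1 := by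
  classical
  ext i j
  unfold linMat
  simp only [Matrix.of_apply]
  rw [MvPowerSeries.coeff_X, Matrix.one_apply]
  by_cases h : i = j
  · subst h; simp
  · rw [if_neg, if_neg h]
    intro h2
    exact h ((Finsupp.single_left_injective one_ne_zero h2).symm)

theorem linT_one {n : ℕ} : linT (1 : Matrix (Fin n) (Fin n) ℂ) = fun i => MvPowerSeries.X i := by
  classical
  funext i
  unfold linT
  rw [Finset.sum_eq_single i]
  · simp
  · intro b _ hb
    rw [Matrix.one_apply_ne hb.symm]
    simp
  · intro h; exact absurd (Finset.mem_univ i) h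

theorem comp_linT_linT {n : ℕ} (M N : Matrix (Fin n) (Fin n) ℂ) :
    comp (linT M) (linT N) = linT (M * N) := by
  funext i
  rw [comp_linT _ (linT_mem N)]
  unfold linT
  simp only [Finset.mul_sum, Matrix.mul_apply, map_sum, Finset.sum_mul]
  rw [Finset.sum_comm]
  apply Finset.sum_congr rfl
  intro j _
  apply Finset.sum_congr rfl
  intro k _
  rw [map_mul]
  ring

/-- inverse of a map tangent to the identity -/
theorem exists_right_inv_of_one {n : ℕ} (F : Fin n → PS n) (hF : ∀ i, F i ∈ J n 1)
    (h1 : linMat F = 1) : ∃ G : Fin n → PS n, (∀ i, G i ∈ J n 1) ∧ linMat G = 1 ∧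
      comp G F = fun i => MvPowerSeries.X i := by
  set W := CS F hF with hW
  have kW : ∀ k, ∀ a ∈ J n k, W a ∈ J n k := CS_J F hF
  have hX : ∀ i, W (MvPowerSeries.X i) - MvPowerSeries.X i ∈ J n 2 := by
    intro i
    rw [hW, CS_X]
    have := sub_lin_mem hF i
    rw [h1, linT_one] at this
    exact this
  have hnear := near_id W kW hX
  have hinj : ∀ k a, W a ∈ J n k → a ∈ J n k := by
    intro k a ha
    have : ∀ j, j ≤ k → a ∈ J n j := by
      intro j
      induction j with
      | zero => intro _ m hm; exact absurd hm (Nat.not_lt_zero _)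
      | succ j ih =>
        intro hj
        have h2 := hnear j a (ih (by omega))
        have h3 : a = W a - (W a - a) := by ring
        rw [h3]
        exact Ideal.sub_mem _ (J_mono hj ha) h2
    exact this k le_rfl
  have hsurj : ∀ (k : ℕ) (b : PS n), ∃ R : PS n, W R - b ∈ J n k := by
    intro k b
    have hi : Function.Injective (qm W kW k).toLinearMap := by
      rw [← LinearMap.ker_eq_bot, LinearMap.ker_eq_bot']
      intro v hv
      obtain ⟨a, rfl⟩ := Ideal.Quotient.mk_surjective v
      rw [AlgHom.toLinearMap_apply, qm_mk] at hv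
      rw [Ideal.Quotient.eq_zero_iff_mem] at hv ⊢
      exact hinj k a hv
    have hs := LinearMap.surjective_of_injective hi
    obtain ⟨v, hv⟩ := hs (Ideal.Quotient.mk (J n k) b)
    obtain ⟨a, rfl⟩ := Ideal.Quotient.mk_surjective v
    refine ⟨a, ?_⟩
    rw [AlgHom.toLinearMap_apply, qm_mk, mk_eq] at hv
    exact hv
  choose R hR using fun (k : ℕ) (i : Fin n) => hsurj k (MvPowerSeries.X i)
  set G : Fin n → PS n := fun i m => MvPowerSeries.coeff m (R (m.degree + 1) i) with hG
  have hnat : ∀ (k l : ℕ) (_ : l ≤ k) (i : Fin n), R k i - R l i ∈ J n l := by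
    intro k l hkl i
    apply hinj
    rw [map_sub]
    have e : W (R k i) - W (R l i) = (W (R k i) - MvPowerSeries.X i) - (W (R l i) - MvPowerSeries.X i) := by
      ring
    rw [e]
    exact Ideal.sub_mem _ (J_mono hkl (hR k i)) (hR l i)
  have hGR : ∀ k i, G i - R k i ∈ J n k := by
    intro k i m hm
    have h1 := hnat k (m.degree + 1) (by omega) i m (by omega)
    rw [map_sub, sub_eq_zero] at h1
    rw [map_sub, sub_eq_zero, h1]
    rfl
  have hWG : ∀ i, W (G i) = MvPowerSeries.X i := by
    intro i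
    rw [← sub_eq_zero]
    apply J_bot
    intro k
    have e : W (G i) - MvPowerSeries.X i = W (G i - R k i) + (W (R k i) - MvPowerSeries.X i) := by
      rw [map_sub]; ring
    rw [e]
    exact Ideal.add_mem _ (kW k _ (hGR k i)) (hR k i)
  have jG : ∀ i, G i ∈ J n 1 := by
    intro i
    apply hinj
    rw [hWG]
    exact X_mem_J i
  have hcomp : comp G F = fun i => MvPowerSeries.X i := by
    funext i
    have := hWG i
    rw [hW, CS_apply] at this
    exact this
  refine ⟨G, jG, ?_, hcomp⟩
  have h2 := linMat_comp jG hF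
  rw [hcomp, linMat_X, h1, mul_one] at h2
  exact h2.symm

theorem exists_inv {n : ℕ} (F : Fin n → PS n) (hF : ∀ i, F i ∈ J n 1)
    (hdet : (linMat F).det ≠ 0) : ∃ G : Fin n → PS n, (∀ i, G i ∈ J n 1) ∧
      comp G F = (fun i => MvPowerSeries.X i) ∧ comp F G = fun i => MvPowerSeries.X i := by
  classical
  set A := linMat F with hA
  have hAu : IsUnit A.det := isUnit_iff_ne_zero.2 hdet
  -- left inverse
  have hleft : ∃ G : Fin n → PS n, (∀ i, G i ∈ J n 1) ∧ comp G F = (fun i => MvPowerSeries.X i) := by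
    have hF' : ∀ i, comp (linT A⁻¹) F i ∈ J n 1 := comp_mem (linT_mem _) hF
    have h1 : linMat (comp (linT A⁻¹) F) = 1 := by
      rw [linMat_comp (linT_mem _) hF, linMat_linT, ← hA]
      exact Matrix.nonsing_inv_mul _ hAu
    obtain ⟨G', jG', -, hG'⟩ := exists_right_inv_of_one _ hF' h1
    refine ⟨comp G' (linT A⁻¹), comp_mem jG' (linT_mem _), ?_⟩
    rw [comp_assoc' (linT_mem _) hF]
    exact hG'
  obtain ⟨G, jG, hG⟩ := hleft
  -- right inverse
  have hright : ∃ K : Fin n → PS n, (∀ i, K i ∈ J n 1) ∧ comp F K = (fun i => MvPowerSeries.X i) := by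
    have hF' : ∀ i, comp F (linT A⁻¹) i ∈ J n 1 := comp_mem hF (linT_mem _)
    have h1 : linMat (comp F (linT A⁻¹)) = 1 := by
      rw [linMat_comp hF (linT_mem _), linMat_linT, ← hA]
      exact Matrix.mul_nonsing_inv _ hAu
    obtain ⟨K, jK, hK1, hK⟩ := exists_right_inv_of_one _ hF' h1
    -- K is left inverse of F'; it has itself a left inverse
    obtain ⟨L, jL, -, hL⟩ := exists_right_inv_of_one K jK hK1
    have hLF : L = comp F (linT A⁻¹) := by
      calc L = comp L (fun i => MvPowerSeries.X i) := (comp_X L).symm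
        _ = comp L (comp K (comp F (linT A⁻¹))) := by rw [hK]
        _ = comp (comp L K) (comp F (linT A⁻¹)) := (comp_assoc' jK hF').symm
        _ = comp F (linT A⁻¹) := by rw [hL, X_comp hF']
    refine ⟨comp (linT A⁻¹) K, comp_mem (linT_mem _) jK, ?_⟩
    rw [← comp_assoc' (linT_mem _) jK, ← hLF, hL]
  obtain ⟨K, jK, hK⟩ := hright
  have hGK : G = K := by
    calc G = comp G (fun i => MvPowerSeries.X i) := (comp_X G).symm
      _ = comp G (comp F K) := by rw [hK]
      _ = comp (comp G F) K := (comp_assoc' hF jK).symm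
      _ = K := by rw [hG, X_comp jK]
  refine ⟨G, jG, hG, ?_⟩
  rw [hGK]
  exact hK

noncomputable instance {n : ℕ} : Mul (FG n) where
  mul F G := ⟨comp F.toFun G.toFun, fun i => mem_J1_iff.1 (comp_mem F.mem G.mem i), by
    rw [linMat_comp F.mem G.mem, Matrix.det_mul]
    exact mul_ne_zero F.det' G.det'⟩

noncomputable instance {n : ℕ} : One (FG n) where
  one := ⟨fun i => MvPowerSeries.X i, fun i => mem_J1_iff.1 (X_mem_J i), by
    rw [linMat_X, Matrix.det_one]
    exact one_ne_zero⟩

theorem FG.mul_toFun {n : ℕ} (F G : FG n) : (F * G).toFun = comp F.toFun G.toFun := rfl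

theorem FG.one_toFun {n : ℕ} : (1 : FG n).toFun = fun i => MvPowerSeries.X i := rfl

theorem FG.exists_inv {n : ℕ} (F : FG n) : ∃ G : FG n, G * F = 1 := by
  obtain ⟨G, jG, hG, -⟩ := Pool.Agent.H92Rev.exists_inv F.toFun F.mem F.det'
  refine ⟨⟨G, fun i => mem_J1_iff.1 (jG i), ?_⟩, ?_⟩
  · have h := linMat_comp jG F.mem
    rw [hG, linMat_X] at h
    intro h0
    have h2 := congrArg Matrix.det h
    rw [Matrix.det_mul, h0, zero_mul, Matrix.det_one] at h2
    exact one_ne_zero h2
  · ext1
    exact hG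

noncomputable instance {n : ℕ} : Inv (FG n) where
  inv F := (F.exists_inv).choose

noncomputable instance {n : ℕ} : Group (FG n) :=
  Group.ofLeftAxioms
    (by
      intro F G H
      ext1
      exact comp_assoc' G.mem H.mem)
    (by
      intro F
      ext1
      exact X_comp F.mem)
    (by
      intro F
      exact (F.exists_inv).choose_spec)

/-- the linear map with matrix `M` -/
noncomputable def lin {n : ℕ} (M : GL (Fin n) ℂ) : FG n :=
  ⟨linT (M : Matrix (Fin n) (Fin n) ℂ), fun i => mem_J1_iff.1 (linT_mem _ i), by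
    rw [linMat_linT]
    exact (Matrix.GeneralLinearGroup.det M).ne_zero⟩

end Pool.Agent.H92Rev
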