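import Mathlib

set_option autoImplicit false
open Filter Topology

namespace Pool.Agent.H92Rev

/-- orbit of the parabolic map through a positive real point -/
theorem orbit_tendsto (y : ℝ) (hy : 0 < y) (x : ℝ) (hx : 0 < x) :
    Tendsto (fun n : ℕ => ((x / (1 + n * (x * y)) : ℝ) : ℂ)) atTop (𝓝[≠] 0) := by
  rw [tendsto_nhdsWithin_iff]
  constructor
  · have h1 : Tendsto (fun n : ℕ => x / (1 + n * (x * y))) atTop (𝓝 0) := by
      apply Tendsto.div_atTop tendsto_const_nhds
      apply tendsto_atTop_add_const_left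
      exact Tendsto.atTop_mul_const (by positivity) tendsto_natCast_atTop_atTop
    have h2 := (Complex.continuous_ofReal.tendsto 0).comp h1
    rw [Complex.ofReal_zero] at h2
    exact h2
  · apply Eventually.of_forall
    intro n
    have : 0 < x / (1 + n * (x * y)) := by positivity
    exact Complex.ofReal_ne_zero.2 this.ne'

/-- A germ of a meromorphic function invariant under `x ↦ x/(1+xy)` is constant. -/
theorem mero_invariant (y : ℝ) (hy : 0 < y) (D : ℂ → ℂ) (hD : MeromorphicAt D 0)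
    (hinv : ∀ᶠ x in 𝓝[≠] (0 : ℂ), D (x / (1 + x * y)) = D x) :
    ∃ c, ∀ᶠ x in 𝓝[≠] (0 : ℂ), D x = c := by
  have hinv' := hinv
  rw [eventually_nhdsWithin_iff, Metric.eventually_nhds_iff] at hinv'
  obtain ⟨ε, hε, h1⟩ := hinv'
  have horb : ∀ x : ℝ, 0 < x → x < ε → ∀ n : ℕ, D ((x / (1 + n * (x * y)) : ℝ) : ℂ) = D x := by
    intro x hx hxε n
    induction n with
    | zero => simp
    | succ n ih =>
      have hpos : 0 < x / (1 + n * (x * y)) := by positivity
      have hle : x / (1 + n * (x * y)) ≤ x := by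
        apply div_le_self hx.le
        have : 0 ≤ n * (x * y) := by positivity
        linarith
      have h2 := @h1 ((x / (1 + n * (x * y)) : ℝ) : ℂ) (by
        rw [dist_zero_right, Complex.norm_real, Real.norm_of_nonneg hpos.le]; linarith)
        (Complex.ofReal_ne_zero.2 hpos.ne')
      rw [← ih, ← h2]
      congr 1
      have h3 : (1 + n * (x * y)) ≠ 0 := by positivity
      have h4 : (1 + (n + 1 : ℕ) * (x * y)) ≠ 0 := by positivity
      have h5 : x / (1 + (n + 1 : ℕ) * (x * y)) =
          (x / (1 + n * (x * y))) / (1 + (x / (1 + n * (x * y))) * y) := by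
        have h6 : 1 + (x / (1 + n * (x * y))) * y = (1 + (n + 1 : ℕ) * (x * y)) / (1 + n * (x * y)) := by
          field_simp
          push_cast
          ring
        rw [h6]
        field_simp
      rw [h5]
      push_cast
      rfl
  have hex : ∃ c, Tendsto D (𝓝[≠] 0) (𝓝 c) := by
    rw [tendsto_nhds_iff_meromorphicOrderAt_nonneg hD]
    by_contra hneg
    rw [not_le] at hneg
    have h2 := tendsto_cobounded_of_meromorphicOrderAt_neg hneg
    have hx : 0 < ε / 2 := by positivity
    have h3 := h2.comp (orbit_tendsto y hy (ε / 2) hx)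
    have h4 : (D ∘ fun n : ℕ => (((ε / 2) / (1 + n * ((ε / 2) * y)) : ℝ) : ℂ)) =
        fun _ => D ((ε / 2 : ℝ) : ℂ) := by
      funext n
      exact horb (ε / 2) hx (by linarith) n
    rw [h4] at h3
    rw [← tendsto_norm_atTop_iff_cobounded] at h3
    exact not_tendsto_const_atTop _ _ h3
  obtain ⟨c, hc⟩ := hex
  refine ⟨c, ?_⟩
  have hreal : ∀ x : ℝ, 0 < x → x < ε → D x = c := by
    intro x hx hxε
    have h3 := hc.comp (orbit_tendsto y hy x hx)
    have h4 : (D ∘ fun n : ℕ => ((x / (1 + n * (x * y)) : ℝ) : ℂ)) = fun _ => D (x : ℂ) := by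
      funext n
      exact horb x hx hxε n
    rw [h4] at h3
    exact tendsto_nhds_unique tendsto_const_nhds h3
  have hfreq : ∃ᶠ z in 𝓝[≠] (0 : ℂ), D z = (fun _ => c) z := by
    apply (orbit_tendsto y hy (ε / 2) (by positivity)).frequently
    apply Eventually.frequently
    apply Eventually.of_forall
    intro n
    apply hreal
    · positivity
    · have : (ε / 2) / (1 + n * ((ε / 2) * y)) ≤ ε / 2 := by
        apply div_le_self (by positivity)
        have : 0 ≤ n * ((ε / 2) * y) := by positivity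
        linarith
      linarith
  exact (MeromorphicAt.frequently_eq_iff_eventuallyEq hD (MeromorphicAt.const c 0)).1 hfreq

/-- analytic version -/
theorem analytic_invariant (y : ℝ) (hy : 0 < y) (D : ℂ → ℂ) (hD : AnalyticAt ℂ D 0)
    (hinv : ∀ᶠ x in 𝓝[≠] (0 : ℂ), D (x / (1 + x * y)) = D x) :
    ∀ᶠ x in 𝓝 (0 : ℂ), D x = D 0 := by
  obtain ⟨c, hc⟩ := mero_invariant y hy D hD.meromorphicAt hinv
  have h0 : D 0 = c := by
    have h1 : Tendsto D (𝓝[≠] 0) (𝓝 (D 0)) := hD.continuousAt.tendsto.mono_left nhdsWithin_le_nhds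
    have h2 : Tendsto D (𝓝[≠] 0) (𝓝 c) := by
      apply tendsto_const_nhds.congr'
      filter_upwards [hc] with x hx
      rw [hx]
    exact tendsto_nhds_unique h1 h2
  rw [h0]
  rw [eventually_nhdsWithin_iff] at hc
  filter_upwards [hc] with x hx
  by_cases hx0 : x = 0
  · rw [hx0, h0]
  · exact hx hx0

/-- the shape of the first coordinate of a reverser -/
theorem first_coord (y : ℝ) (hy : 0 < y) (b : ℂ) (hb : b ≠ 0) (a : ℂ → ℂ)
    (ha : AnalyticAt ℂ a 0)
    (hrel : ∀ᶠ x in 𝓝 (0 : ℂ), a (x / (1 + x * y)) / (1 + a (x / (1 + x * y)) * b) = a x)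
    (hne : ¬ ∀ᶠ x in 𝓝 (0 : ℂ), a x = 0) :
    a 0 = 0 ∧ ∃ c, ∀ᶠ x in 𝓝[≠] (0 : ℂ), a x ≠ 0 ∧ (a x * b)⁻¹ = - (x * y)⁻¹ + c := by
  have hyC : (y : ℂ) ≠ 0 := by exact_mod_cast hy.ne'
  have h0 : ∀ᶠ x in 𝓝[≠] (0 : ℂ), a x ≠ 0 :=
    ha.eventually_eq_zero_or_eventually_ne_zero.resolve_left hne
  have hsmall : ∀ᶠ x in 𝓝[≠] (0 : ℂ), 1 + x * (y : ℂ) ≠ 0 := by
    apply Filter.Eventually.filter_mono nhdsWithin_le_nhds
    have hc : ContinuousAt (fun x : ℂ => 1 + x * (y : ℂ)) 0 := by fun_prop
    apply hc.eventually_ne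
    simp
  have hmer : MeromorphicAt (fun x => (a x * b)⁻¹ + (x * y)⁻¹) 0 := by
    apply MeromorphicAt.add
    · exact (ha.meromorphicAt.mul (MeromorphicAt.const b 0)).inv
    · exact ((MeromorphicAt.id 0).mul (MeromorphicAt.const (y : ℂ) 0)).inv
  obtain ⟨c, hc⟩ := mero_invariant y hy _ hmer (by
    filter_upwards [h0, hrel.filter_mono nhdsWithin_le_nhds, hsmall, self_mem_nhdsWithin]
      with x h1 h2 h3 h4
    have hx : x ≠ 0 := h4
    have h5 : a (x / (1 + x * y)) ≠ 0 := by
      intro h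
      rw [h] at h2
      simp at h2
      exact h1 h2.symm
    have h6 : 1 + a (x / (1 + x * y)) * b ≠ 0 := by
      intro h
      rw [h] at h2
      simp at h2
      exact h1 h2.symm
    rw [← h2]
    field_simp
    ring)
  constructor
  · have h1 : Tendsto (fun x => x * y + a x * b - c * (a x * b) * (x * y)) (𝓝[≠] 0)
        (𝓝 (0 * y + a 0 * b - c * (a 0 * b) * (0 * y))) := by
      have hac := ha.continuousAt
      have : ContinuousAt (fun x => x * (y:ℂ) + a x * b - c * (a x * b) * (x * y)) 0 := by fun_prop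
      exact this.tendsto.mono_left nhdsWithin_le_nhds
    have h2 : Tendsto (fun x => x * y + a x * b - c * (a x * b) * (x * y)) (𝓝[≠] 0) (𝓝 0) := by
      apply tendsto_const_nhds.congr'
      filter_upwards [h0, hc, self_mem_nhdsWithin] with x h3 h4 h5
      have hx : x ≠ 0 := h5
      rw [← h4]
      field_simp
      ring
    have h3 := tendsto_nhds_unique h1 h2
    simpa [hb] using h3
  · refine ⟨c, ?_⟩
    filter_upwards [h0, hc] with x h1 h2
    exact ⟨h1, by linear_combination h2⟩

end Pool.Agent.H92Rev
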