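import Mathlib

set_option autoImplicit false
open Filter Topology

namespace Pool.Agent.H92Rev

theorem irr_inv_dense (y : ℝ) (U : Set ℝ) (hU : U ∈ 𝓝 y) : ∃ z ∈ U, Irrational z⁻¹ := by
  have hc : Set.Countable {z : ℝ | ¬ Irrational z⁻¹} := by
    have h1 : {z : ℝ | ¬ Irrational z⁻¹} ⊆ Set.range (fun q : ℚ => ((q : ℝ))⁻¹) := by
      intro z hz
      rw [Set.mem_ofPred_eq, irrational_iff_ne_rational] at hz
      push Not at hz
      obtain ⟨a, b, hb, hab⟩ := hz
      refine ⟨(a : ℚ) / b, ?_⟩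
      push_cast
      rw [← hab, inv_inv]
    exact (Set.countable_range _).mono h1
  have hd := hc.dense_compl ℝ
  rw [dense_iff_inter_open] at hd
  obtain ⟨V, hVU, hVo, hyV⟩ := mem_nhds_iff.1 hU
  obtain ⟨z, hzV, hz⟩ := hd V hVo ⟨y, hyV⟩
  refine ⟨z, hVU hzV, ?_⟩
  simpa using hz

theorem const_shift (φ : ℝ → ℂ) (r : ℝ) (hφ : ContinuousOn φ (Set.Ioo 0 r))
    (hφ0 : ∀ y ∈ Set.Ioo 0 r, φ y ≠ 0)
    (hm : ∀ y ∈ Set.Ioo 0 r, Irrational y⁻¹ → ∃ m : ℤ, (φ y)⁻¹ = (y : ℂ)⁻¹ + 1 / 2 + m) :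
    ∃ m : ℤ, ∀ y ∈ Set.Ioo 0 r, (φ y)⁻¹ = (y : ℂ)⁻¹ + 1 / 2 + m := by
  set Q : ℝ → ℂ := fun y => (φ y)⁻¹ - (y : ℂ)⁻¹ - 1 / 2 with hQ
  have hQc : ContinuousOn Q (Set.Ioo 0 r) := by
    apply ContinuousOn.sub
    · apply ContinuousOn.sub
      · exact hφ.inv₀ hφ0
      · apply ContinuousOn.inv₀
        · exact Complex.continuous_ofReal.continuousOn
        · intro y hy
          exact_mod_cast hy.1.ne'
    · exact continuousOn_const
  -- integrality everywhere
  have hint : ∀ y ∈ Set.Ioo 0 r, ∃ m : ℤ, Q y = m := by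
    intro y hy
    have hs : Complex.sin (Real.pi * Q y) = 0 := by
      by_contra hne
      have hcont : ContinuousAt (fun y => Complex.sin (Real.pi * Q y)) y := by
        have h1 : ContinuousAt Q y := hQc.continuousAt (Ioo_mem_nhds hy.1 hy.2)
        exact Complex.continuous_sin.continuousAt.comp (continuousAt_const.mul h1)
      have h2 := (hcont.eventually_ne hne).and (Ioo_mem_nhds hy.1 hy.2)
      obtain ⟨z, hz, hzi⟩ := irr_inv_dense y _ h2
      obtain ⟨m, hm⟩ := hm z hz.2 hzi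
      apply hz.1
      have : Q z = m := by rw [hQ]; simp only []; rw [hm]; ring
      rw [this, mul_comm]
      exact Complex.sin_int_mul_pi m
    rw [Complex.sin_eq_zero_iff] at hs
    obtain ⟨m, hm⟩ := hs
    refine ⟨m, ?_⟩
    have hpi : (Real.pi : ℂ) ≠ 0 := by exact_mod_cast Real.pi_ne_zero
    apply mul_left_cancel₀ hpi
    rw [hm]; ring
  choose! m hm' using hint
  have hmc : ContinuousOn m (Set.Ioo 0 r) := by
    rw [Int.isClosedEmbedding_coe_real.isEmbedding.isInducing.continuousOn_iff]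
    have h1 : ContinuousOn (fun y => (Q y).re) (Set.Ioo 0 r) :=
      Complex.continuous_re.comp_continuousOn hQc
    apply h1.congr
    intro y hy
    show (m y : ℝ) = (Q y).re
    rw [hm' y hy]; simp
  by_cases hr : 0 < r
  · refine ⟨m (r / 2), ?_⟩
    intro y hy
    have h1 : m y = m (r / 2) :=
      isPreconnected_Ioo.constant hmc hy ⟨by linarith, by linarith⟩
    rw [← h1]
    have h2 := hm' y hy
    rw [← h2, hQ]; ring
  · refine ⟨0, ?_⟩
    intro y hy
    exact absurd (hy.1.trans hy.2) hr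

theorem no_period (h : (Fin 3 → ℂ) → (Fin 3 → ℂ)) (r : ℝ) (hr : 0 < r) (m : ℤ)
    (hφ : ∀ y : ℝ, y ∈ Set.Ioo 0 r →
      h ![0, (y : ℂ), 0] = ![0, (((y⁻¹ + 1 / 2 + m)⁻¹ : ℝ) : ℂ), 0])
    (k : ℕ) (hk : 0 < k) (hper : h^[k] =ᶠ[𝓝 (0 : Fin 3 → ℂ)] id) : False := by
  set q : ℝ := 1 / 2 + m with hq
  have hq0 : q ≠ 0 := by
    intro h0
    have h1 : (2 * m : ℝ) = -1 := by rw [hq] at h0; linarith
    have h2 : (2 * m : ℤ) = -1 := by exact_mod_cast h1
    omega
  have ht : Tendsto (fun y : ℝ => (![0, (y : ℂ), 0] : Fin 3 → ℂ)) (𝓝[>] 0) (𝓝 0) := by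
    have hc : Continuous (fun y : ℝ => (![0, (y : ℂ), 0] : Fin 3 → ℂ)) := by
      apply continuous_pi
      intro i
      fin_cases i
      · exact continuous_const
      · exact Complex.continuous_ofReal
      · exact continuous_const
    have h1 := hc.tendsto 0
    have h2 : (![0, ((0 : ℝ) : ℂ), 0] : Fin 3 → ℂ) = 0 := by
      funext i; fin_cases i <;> simp
    rw [h2] at h1
    exact h1.mono_left nhdsWithin_le_nhds
  have h1 := ht.eventually hper
  have h2 : ∀ᶠ y : ℝ in 𝓝[>] 0, k * |q| + 1 / r < y⁻¹ :=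
    tendsto_inv_nhdsGT_zero.eventually_gt_atTop _
  obtain ⟨y, ⟨hy1, hy2⟩, hy3⟩ := ((h1.and h2).and self_mem_nhdsWithin).exists
  have hy : 0 < y := hy3
  have hbound : ∀ j : ℕ, j ≤ k → 1 / r < y⁻¹ + j * q := by
    intro j hj
    have h4 : |(j : ℝ) * q| ≤ k * |q| := by
      rw [abs_mul, Nat.abs_cast]
      exact mul_le_mul_of_nonneg_right (by exact_mod_cast hj) (abs_nonneg q)
    have h5 := neg_abs_le ((j : ℝ) * q)
    linarith
  have hiter : ∀ j : ℕ, j ≤ k → h^[j] ![0, (y : ℂ), 0] = ![0, (((y⁻¹ + j * q)⁻¹ : ℝ) : ℂ), 0] := by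
    intro j
    induction j with
    | zero => intro _; simp
    | succ j ih =>
      intro hj
      rw [Function.iterate_succ_apply', ih (by omega)]
      have h4 := hbound j (by omega)
      have h5 : 0 < 1 / r := by positivity
      have hpos : 0 < y⁻¹ + j * q := by linarith
      rw [hφ]
      · congr 4
        rw [inv_inv]
        push_cast
        rw [hq]; ring
      · constructor
        · exact inv_pos.2 hpos
        · rw [inv_lt_comm₀ hpos hr]
          simpa using h4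
  have h6 := hiter k le_rfl
  rw [hy1] at h6
  have h7 := congrFun h6 1
  simp only [id, Matrix.cons_val_one, Matrix.cons_val_zero] at h7
  have h8 : y = (y⁻¹ + k * q)⁻¹ := by exact_mod_cast h7
  have h9 : y⁻¹ = y⁻¹ + k * q := by
    conv_lhs => rw [h8]
    rw [inv_inv]
  have h10 : (k : ℝ) * q = 0 := by linarith
  rcases mul_eq_zero.1 h10 with h11 | h11
  · have : k = 0 := by exact_mod_cast h11
    omega
  · exact hq0 h11

end Pool.Agent.H92Rev
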