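import Mathlib

set_option autoImplicit false

namespace Pool.Agent.H92Rev

/-- Nullstellensatz in countably many variables over the complex numbers. -/
theorem exists_point {σ : Type} [Countable σ] (I : Ideal (MvPolynomial σ ℂ)) (hI : I ≠ ⊤) :
    ∃ φ : MvPolynomial σ ℂ →ₐ[ℂ] ℂ, ∀ p ∈ I, φ p = 0 := by
  classical
  obtain ⟨m, hm, hIm⟩ := Ideal.exists_le_maximal I hI
  let _ : Field (MvPolynomial σ ℂ ⧸ m) := Ideal.Quotient.field m
  have hrankP : Module.rank ℂ (MvPolynomial σ ℂ) ≤ Cardinal.aleph0 := by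
    rw [← (MvPolynomial.basisMonomials σ ℂ).mk_eq_rank'']
    exact Cardinal.mk_le_aleph0
  have hrankK : Module.rank ℂ (MvPolynomial σ ℂ ⧸ m) ≤ Cardinal.aleph0 := by
    refine le_trans ?_ hrankP
    exact LinearMap.rank_le_of_surjective (Ideal.Quotient.mkₐ ℂ m).toLinearMap
      Ideal.Quotient.mk_surjective
  have halg : Algebra.IsAlgebraic ℂ (MvPolynomial σ ℂ ⧸ m) := by
    constructor
    intro x
    by_contra hx
    have hli := Transcendental.linearIndependent_sub_inv (F := ℂ) (E := MvPolynomial σ ℂ ⧸ m) hx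
    have h1 := hli.cardinal_le_rank
    have h2 : Cardinal.mk ℂ ≤ Cardinal.aleph0 := h1.trans hrankK
    rw [Cardinal.mk_complex] at h2
    exact absurd h2 (not_le.2 Cardinal.aleph0_lt_continuum)
  have hint : Algebra.IsIntegral ℂ (MvPolynomial σ ℂ ⧸ m) := Algebra.isAlgebraic_iff_isIntegral.1 halg
  have hbij := IsAlgClosed.algebraMap_bijective_of_isIntegral (k := ℂ) (K := MvPolynomial σ ℂ ⧸ m)
  let e : ℂ ≃ₐ[ℂ] (MvPolynomial σ ℂ ⧸ m) := AlgEquiv.ofBijective (Algebra.ofId ℂ _) hbij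
  refine ⟨(e.symm : (MvPolynomial σ ℂ ⧸ m) →ₐ[ℂ] ℂ).comp (Ideal.Quotient.mkₐ ℂ m), ?_⟩
  intro p hp
  have : (Ideal.Quotient.mkₐ ℂ m) p = 0 := Ideal.Quotient.eq_zero_iff_mem.2 (hIm hp)
  rw [AlgHom.comp_apply, this, map_zero]

end Pool.Agent.H92Rev
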