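import Pool.Agent.H92Rev.Rev
import Pool.Agent.H92Rev.Null

set_option autoImplicit false

namespace Pool.Agent.H92Rev

/-- equality of jets -/
def JetEq {n : ℕ} (k : ℕ) (F G : FG n) : Prop := ∀ i, F.toFun i - G.toFun i ∈ J n k

theorem subst_congr {n : ℕ} {k : ℕ} {F G : Fin n → PS n} (hF : ∀ i, F i ∈ J n 1)
    (hG : ∀ i, G i ∈ J n 1) (h : ∀ i, F i - G i ∈ J n k) (a : PS n) :
    MvPowerSeries.subst F a - MvPowerSeries.subst G a ∈ J n k := by
  rw [← CS_apply F hF, ← CS_apply G hG, ← mk_eq]
  have h1 : (Ideal.Quotient.mkₐ ℂ (J n k)).comp (CS F hF) =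
      (Ideal.Quotient.mkₐ ℂ (J n k)).comp (CS G hG) := by
    apply hom_ext_J (k := k)
    · intro a ha
      exact Ideal.Quotient.eq_zero_iff_mem.mpr (CS_J F hF k a ha)
    · intro a ha
      exact Ideal.Quotient.eq_zero_iff_mem.mpr (CS_J G hG k a ha)
    · intro i
      rw [AlgHom.comp_apply, AlgHom.comp_apply, CS_X, CS_X]
      exact mk_eq.2 (h i)
  exact congrArg (fun F => F a) h1

theorem JetEq.mul_left {n k : ℕ} {F G : FG n} (h : JetEq k F G) (H : FG n) :
    JetEq k (H * F) (H * G) := fun i => subst_congr F.mem G.mem h (H.toFun i)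

theorem JetEq.mul_right {n k : ℕ} {F G : FG n} (h : JetEq k F G) (H : FG n) :
    JetEq k (F * H) (G * H) := by
  intro i
  show MvPowerSeries.subst H.toFun (F.toFun i) - MvPowerSeries.subst H.toFun (G.toFun i) ∈ J n k
  rw [← MvPowerSeries.subst_sub (hasSubst_of H.mem)]
  exact subst_J H.mem (h i)

/-- the variables: the coefficients of an unknown map and the inverse of a determinant -/
abbrev Var (n : ℕ) := Option (Fin n × (Fin n →₀ ℕ))

/-- generic formal map -/
noncomputable def gen (n : ℕ) : Fin n → MvPowerSeries (Fin n) (MvPolynomial (Var n) ℂ) :=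
  fun i m => if m = 0 then 0 else MvPolynomial.X (some (i, m))

theorem coeff_gen {n : ℕ} (i : Fin n) (m : Fin n →₀ ℕ) :
    MvPowerSeries.coeff m (gen n i) = if m = 0 then 0 else MvPolynomial.X (some (i, m)) := rfl

/-- coefficients extended to the polynomial ring -/
noncomputable def ext {n : ℕ} (F : Fin n → PS n) :
    Fin n → MvPowerSeries (Fin n) (MvPolynomial (Var n) ℂ) :=
  fun i => MvPowerSeries.map MvPolynomial.C (F i)

/-- the equation `f ∘ H ∘ f - H` -/
noncomputable def eqn {n : ℕ} (F : Fin n → PS n) (i : Fin n) :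
    MvPowerSeries (Fin n) (MvPolynomial (Var n) ℂ) :=
  MvPowerSeries.subst (fun j => MvPowerSeries.subst (ext F) (gen n j)) (ext F i) - gen n i

theorem hasSubst0 {n : ℕ} {R : Type} [CommRing R] {F : Fin n → MvPowerSeries (Fin n) R}
    (hF : ∀ i, MvPowerSeries.constantCoeff (F i) = 0) : MvPowerSeries.HasSubst F :=
  MvPowerSeries.hasSubst_of_constantCoeff_zero hF

theorem ext_zero {n : ℕ} {F : Fin n → PS n} (hF : ∀ i, MvPowerSeries.constantCoeff (F i) = 0)
    (i : Fin n) : MvPowerSeries.constantCoeff (ext F i) = 0 := by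
  unfold ext
  rw [MvPowerSeries.constantCoeff_map, hF, map_zero]

theorem gen_zero {n : ℕ} (i : Fin n) : MvPowerSeries.constantCoeff (gen n i) = 0 := by
  rw [← MvPowerSeries.coeff_zero_eq_constantCoeff_apply, coeff_gen, if_pos rfl]

theorem map_eqn {n : ℕ} {F : Fin n → PS n} (hF : ∀ i, MvPowerSeries.constantCoeff (F i) = 0)
    (θ : MvPolynomial (Var n) ℂ →ₐ[ℂ] ℂ) (i : Fin n) :
    MvPowerSeries.map (θ : MvPolynomial (Var n) ℂ →+* ℂ) (eqn F i) =
      MvPowerSeries.subst (fun j => MvPowerSeries.subst F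
        (MvPowerSeries.map (θ : MvPolynomial (Var n) ℂ →+* ℂ) (gen n j))) (F i) -
        MvPowerSeries.map (θ : MvPolynomial (Var n) ℂ →+* ℂ) (gen n i) := by
  unfold eqn
  have hmap : ∀ j, MvPowerSeries.map (θ : MvPolynomial (Var n) ℂ →+* ℂ) (ext F j) = F j := by
    intro j
    unfold ext
    ext m
    rw [MvPowerSeries.coeff_map, MvPowerSeries.coeff_map]
    exact θ.commutes _
  have h1 : MvPowerSeries.HasSubst (ext F) := hasSubst0 (ext_zero hF)
  have h2 : MvPowerSeries.HasSubst (fun j => MvPowerSeries.subst (ext F) (gen n j)) := by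
    apply hasSubst0
    intro j
    exact MvPowerSeries.constantCoeff_subst_eq_zero h1 (ext_zero hF) (gen_zero j)
  rw [map_sub, MvPowerSeries.map_subst h2, hmap]
  congr 2
  funext j
  rw [MvPowerSeries.map_subst h1]
  congr 1
  funext l
  exact hmap l

/-- the ideal of equations up to degree `k` -/
noncomputable def idealK {n : ℕ} (F : Fin n → PS n) (k : ℕ) : Ideal (MvPolynomial (Var n) ℂ) :=
  Ideal.span ({p | ∃ (i : Fin n) (m : Fin n →₀ ℕ), m.degree < k ∧ p = MvPowerSeries.coeff m (eqn F i)} ∪
    {(Matrix.of fun i j => (MvPolynomial.X (some (i, Finsupp.single j 1)) :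
      MvPolynomial (Var n) ℂ)).det * MvPolynomial.X none - 1})

theorem idealK_mono {n : ℕ} (F : Fin n → PS n) : Monotone (idealK F) := by
  intro k l hkl
  apply Ideal.span_mono
  apply Set.union_subset_union_left
  rintro p ⟨i, m, hm, hp⟩
  exact ⟨i, m, lt_of_lt_of_le hm hkl, hp⟩

theorem jets_suffice {n : ℕ} (f : FG n)
    (hj : ∀ k : ℕ, ∃ h : FG n, JetEq k (f * h * f) h) : ∃ h : FG n, f * h * f = h := by
  classical
  set I : Ideal (MvPolynomial (Var n) ℂ) := ⨆ k, idealK f.toFun k with hI
  have hItop : I ≠ ⊤ := by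
    intro htop
    have h1 : (1 : MvPolynomial (Var n) ℂ) ∈ I := by rw [htop]; exact Submodule.mem_top
    rw [hI, Submodule.mem_iSup_of_directed _ (idealK_mono f.toFun).directed_le] at h1
    obtain ⟨k, hk⟩ := h1
    obtain ⟨h, hh⟩ := hj k
    -- the evaluation
    let val : Var n → ℂ := fun v => match v with
      | none => ((linMat h.toFun).det)⁻¹
      | some (i, m) => MvPowerSeries.coeff m (h.toFun i)
    let θ : MvPolynomial (Var n) ℂ →ₐ[ℂ] ℂ := MvPolynomial.aeval val
    have hgen : ∀ i, MvPowerSeries.map (θ : MvPolynomial (Var n) ℂ →+* ℂ) (gen n i) = h.toFun i := by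
      intro i
      ext m
      rw [MvPowerSeries.coeff_map, coeff_gen]
      by_cases hm : m = 0
      · rw [if_pos hm, hm, map_zero, MvPowerSeries.coeff_zero_eq_constantCoeff_apply, h.zero']
      · rw [if_neg hm]
        exact MvPolynomial.aeval_X val _
    have hker : idealK f.toFun k ≤ RingHom.ker (θ : MvPolynomial (Var n) ℂ →+* ℂ) := by
      apply Ideal.span_le.2
      rintro p (⟨i, m, hm, rfl⟩ | hp)
      · show (θ : MvPolynomial (Var n) ℂ →+* ℂ) (MvPowerSeries.coeff m (eqn f.toFun i)) = 0
        rw [← MvPowerSeries.coeff_map, map_eqn f.zero' θ i]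
        simp only [hgen]
        have hfin := hh i m hm
        rw [mul_assoc] at hfin
        exact hfin
      · rw [Set.mem_singleton_iff] at hp
        rw [hp]
        show (θ : MvPolynomial (Var n) ℂ →+* ℂ) _ = 0
        rw [map_sub, map_mul, RingHom.map_det, map_one]
        have e1 : (θ : MvPolynomial (Var n) ℂ →+* ℂ).mapMatrix (Matrix.of fun i j =>
            (MvPolynomial.X (some (i, Finsupp.single j 1)) : MvPolynomial (Var n) ℂ)) = linMat h.toFun := by
          ext i j
          rw [RingHom.mapMatrix_apply, Matrix.map_apply, Matrix.of_apply]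
          exact MvPolynomial.aeval_X val _
        have e2 : (θ : MvPolynomial (Var n) ℂ →+* ℂ) (MvPolynomial.X none) = ((linMat h.toFun).det)⁻¹ :=
          MvPolynomial.aeval_X val _
        rw [e1, e2, mul_inv_cancel₀ h.det', sub_self]
    have := hker hk
    rw [RingHom.mem_ker, map_one] at this
    exact one_ne_zero this
  obtain ⟨θ, hθ⟩ := exists_point I hItop
  set H : Fin n → PS n := fun i => MvPowerSeries.map (θ : MvPolynomial (Var n) ℂ →+* ℂ) (gen n i)
    with hH
  have hH0 : ∀ i, MvPowerSeries.constantCoeff (H i) = 0 := by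
    intro i
    rw [hH]
    simp only
    rw [MvPowerSeries.constantCoeff_map, gen_zero, map_zero]
  have hdet : (linMat H).det ≠ 0 := by
    have h1 : (Matrix.of fun i j => (MvPolynomial.X (some (i, Finsupp.single j 1)) :
      MvPolynomial (Var n) ℂ)).det * MvPolynomial.X none - 1 ∈ I := by
      rw [hI]
      apply Submodule.mem_iSup_of_mem 0
      apply Ideal.subset_span
      right
      rfl
    have h2 := hθ _ h1
    have h3 : (θ : MvPolynomial (Var n) ℂ →+* ℂ) ((Matrix.of fun i j => (MvPolynomial.X (some (i, Finsupp.single j 1)) :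
      MvPolynomial (Var n) ℂ)).det * MvPolynomial.X none - 1) = 0 := h2
    rw [map_sub, map_mul, RingHom.map_det, map_one] at h3
    have e1 : (θ : MvPolynomial (Var n) ℂ →+* ℂ).mapMatrix (Matrix.of fun i j =>
        (MvPolynomial.X (some (i, Finsupp.single j 1)) : MvPolynomial (Var n) ℂ)) = linMat H := by
      ext i j
      rw [RingHom.mapMatrix_apply, Matrix.map_apply, Matrix.of_apply]
      show _ = MvPowerSeries.coeff (Finsupp.single j 1) (H i)
      rw [hH]
      simp only
      rw [MvPowerSeries.coeff_map, coeff_gen, if_neg]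
      intro h
      have := congrArg (fun g => g j) h
      simp at this
    rw [e1] at h3
    intro h0
    rw [h0, zero_mul, zero_sub, neg_eq_zero] at h3
    exact one_ne_zero h3
  refine ⟨⟨H, hH0, hdet⟩, ?_⟩
  ext1
  rw [mul_assoc]
  show comp f.toFun (comp H f.toFun) = H
  funext i
  have h1 : MvPowerSeries.map (θ : MvPolynomial (Var n) ℂ →+* ℂ) (eqn f.toFun i) = 0 := by
    ext m
    rw [MvPowerSeries.coeff_map]
    have h2 : MvPowerSeries.coeff m (eqn f.toFun i) ∈ I := by
      rw [hI]
      apply Submodule.mem_iSup_of_mem (m.degree + 1)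
      apply Ideal.subset_span
      left
      exact ⟨i, m, by omega, rfl⟩
    have h3 := hθ _ h2
    rw [map_zero]
    exact h3
  rw [map_eqn f.zero' θ i, sub_eq_zero] at h1
  exact h1

end Pool.Agent.H92Rev
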