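import Pool.Agent.H92Rev.Jet

set_option autoImplicit false

namespace Pool.Agent.H92Rev

/-- The diagonal linear map `(x_1, ..., x_n) ↦ (d_1 x_1, ..., d_n x_n)`. -/
noncomputable def diagMap {n : ℕ} (d : Fin n → ℂˣ) : FG n where
  toFun := fun i => MvPowerSeries.C (d i : ℂ) * MvPowerSeries.X i
  zero' := by intro i; simp
  det' := by
    have h : linMat (fun i : Fin n => (MvPowerSeries.C (d i : ℂ) * MvPowerSeries.X i : MvPowerSeries (Fin n) ℂ)) =
        Matrix.diagonal fun i => (d i : ℂ) := by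
      classical
      ext i j
      unfold linMat
      rw [Matrix.of_apply, MvPowerSeries.coeff_C_mul, MvPowerSeries.coeff_X, Matrix.diagonal_apply]
      by_cases hij : i = j
      · subst hij; simp
      · rw [if_neg, if_neg hij, mul_zero]
        intro h2
        exact hij ((Finsupp.single_left_injective one_ne_zero h2).symm)
    rw [h, Matrix.det_diagonal]
    exact Finset.prod_ne_zero_iff.2 fun i _ => (d i).ne_zero

theorem linT_diagonal {n : ℕ} (d : Fin n → ℂ) :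
    linT (Matrix.diagonal d) = fun i => (MvPowerSeries.C (d i) * MvPowerSeries.X i : PS n) := by
  classical
  funext i
  unfold linT
  rw [Finset.sum_eq_single i]
  · rw [Matrix.diagonal_apply_eq]
  · intro b _ hb
    rw [Matrix.diagonal_apply_ne _ hb.symm]
    simp
  · intro h; exact absurd (Finset.mem_univ i) h

theorem det_diag_ne {n : ℕ} (d : Fin n → ℂˣ) : (Matrix.diagonal fun i => (d i : ℂ)).det ≠ 0 := by
  rw [Matrix.det_diagonal]
  exact Finset.prod_ne_zero_iff.2 fun i _ => (d i).ne_zero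

theorem diagMap_eq {n : ℕ} (d : Fin n → ℂˣ) :
    diagMap d = ofMat (Matrix.diagonal fun i => (d i : ℂ)) (det_diag_ne d) := by
  ext1
  exact (linT_diagonal _).symm

theorem ofMat_congr {n : ℕ} {M N : Matrix (Fin n) (Fin n) ℂ} (h : M = N) (hM : M.det ≠ 0)
    (hN : N.det ≠ 0) : ofMat M hM = ofMat N hN := by
  subst h; rfl

theorem diagMap_mul {n : ℕ} (d e : Fin n → ℂˣ) : diagMap d * diagMap e = diagMap (d * e) := by
  rw [diagMap_eq, diagMap_eq, diagMap_eq, ofMat_mul]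
  apply ofMat_congr
  rw [Matrix.diagonal_mul_diagonal]
  congr 1

theorem diagMap_one {n : ℕ} : diagMap (1 : Fin n → ℂˣ) = 1 := by
  ext1
  show (fun i => (MvPowerSeries.C ((1 : Fin n → ℂˣ) i : ℂ) * MvPowerSeries.X i : PS n)) = fun i => MvPowerSeries.X i
  funext i
  simp

theorem diagMap_pow {n : ℕ} (d : Fin n → ℂˣ) (k : ℕ) : diagMap d ^ k = diagMap (d ^ k) := by
  induction k with
  | zero => rw [pow_zero, pow_zero, diagMap_one]
  | succ k ih => rw [pow_succ, ih, diagMap_mul, pow_succ]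

theorem diagMap_inj {n : ℕ} {d e : Fin n → ℂˣ} (h : diagMap d = diagMap e) : d = e := by
  funext i
  have h1 := congrArg (fun F : FG n => MvPowerSeries.coeff (Finsupp.single i 1) (F.toFun i)) h
  simp only [diagMap] at h1
  rw [MvPowerSeries.coeff_C_mul, MvPowerSeries.coeff_C_mul, MvPowerSeries.coeff_X, if_pos rfl,
    mul_one, mul_one] at h1
  exact Units.ext h1

/-- Commutation with a diagonal map is a condition on the monomials. -/
theorem commute_diag_iff {n : ℕ} (h : FG n) (d : Fin n → ℂˣ) :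
    h * diagMap d = diagMap d * h ↔
      ∀ (i : Fin n) (m : Fin n →₀ ℕ), (∏ j, (d j) ^ (m j)) ≠ d i →
        MvPowerSeries.coeff m (h.toFun i) = 0 := by
  classical
  have hl : ∀ (i : Fin n) (m : Fin n →₀ ℕ), MvPowerSeries.coeff m ((h * diagMap d).toFun i) =
      ((∏ j, (d j) ^ (m j) : ℂˣ) : ℂ) * MvPowerSeries.coeff m (h.toFun i) := by
    intro i m
    have e1 : (h * diagMap d).toFun i = MvPowerSeries.rescale (fun j => (d j : ℂ)) (h.toFun i) := by
      rw [MvPowerSeries.rescale_eq_subst]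
      show MvPowerSeries.subst (diagMap d).toFun (h.toFun i) = _
      congr 1
      funext j
      show MvPowerSeries.C (d j : ℂ) * MvPowerSeries.X j = _
      rw [Pi.smul_apply', MvPowerSeries.smul_eq_C_mul]
    rw [e1, MvPowerSeries.coeff_rescale]
    congr 1
    rw [Finsupp.prod_fintype _ _ (by intro j; exact pow_zero _)]
    push_cast
    rfl
  have hr : ∀ (i : Fin n) (m : Fin n →₀ ℕ), MvPowerSeries.coeff m ((diagMap d * h).toFun i) =
      (d i : ℂ) * MvPowerSeries.coeff m (h.toFun i) := by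
    intro i m
    rw [diagMap_eq]
    show MvPowerSeries.coeff m (comp (linT _) h.toFun i) = _
    rw [comp_linT _ h.mem, map_sum, Finset.sum_eq_single i]
    · rw [Matrix.diagonal_apply_eq, MvPowerSeries.coeff_C_mul]
    · intro b _ hb
      rw [Matrix.diagonal_apply_ne _ hb.symm, MvPowerSeries.coeff_C_mul, zero_mul]
    · intro hh; exact absurd (Finset.mem_univ i) hh
  constructor
  · intro hc i m hne
    have h1 := hl i m
    rw [hc, hr] at h1
    have h2 : (((∏ j, (d j) ^ (m j) : ℂˣ) : ℂ) - (d i : ℂ)) * MvPowerSeries.coeff m (h.toFun i) = 0 := by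
      linear_combination -h1
    rcases mul_eq_zero.1 h2 with h3 | h3
    · exact absurd (Units.ext (sub_eq_zero.1 h3)) hne
    · exact h3
  · intro hcond
    ext1
    funext i
    ext m
    rw [hl, hr]
    by_cases hne : (∏ j, (d j) ^ (m j)) = d i
    · rw [hne]
    · rw [hcond i m hne, mul_zero, mul_zero]

/-- (a) implies (b) -/
theorem exists_diag_reverser {n : ℕ} (f : FG n) (hf : Reversible f) :
    ∃ (N : ℕ) (ζ : Fin n → ℂˣ) (φ : FG n), (∀ i, (ζ i) ^ (2 ^ N) = 1) ∧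
      diagMap ζ * (φ * f * φ⁻¹) * (diagMap ζ)⁻¹ = (φ * f * φ⁻¹)⁻¹ := by
  classical
  obtain ⟨N, τ, hτ, hrev⟩ := exists_two_power_reverser f hf
  obtain ⟨φ, hφ, -, -⟩ := linearise τ (2 ^ N) (by positivity) hτ
  have hA : (linMat τ.toFun) ^ (2 ^ N) = 1 := by
    rw [← FG.linMat_pow, hτ, FG.linMat_one]
  obtain ⟨P, P', d, hPP', hP'P, hAP, -⟩ := diag_commuting (fun _ => (1 : ℂ)) (linMat τ.toFun) (2 ^ N)
    (by positivity) hA (by rw [Matrix.diagonal_one, Matrix.mul_one, Matrix.one_mul])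
  have hPdet : P.det ≠ 0 := by
    intro h0
    have := congrArg Matrix.det hPP'
    rw [Matrix.det_mul, h0, zero_mul, Matrix.det_one] at this
    exact zero_ne_one this
  have hdpow : ∀ i, d i ^ (2 ^ N) = 1 := by
    have h1 : ∀ q : ℕ, (linMat τ.toFun) ^ q * P = P * Matrix.diagonal (fun i => d i ^ q) := by
      intro q
      induction q with
      | zero => simp
      | succ q ih =>
        rw [pow_succ, Matrix.mul_assoc, hAP, ← Matrix.mul_assoc, ih, Matrix.mul_assoc,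
          Matrix.diagonal_mul_diagonal]
        congr 2
    have h2 := h1 (2 ^ N)
    rw [hA, Matrix.one_mul] at h2
    have h3 : Matrix.diagonal (fun i => d i ^ (2 ^ N)) = 1 := by
      calc Matrix.diagonal (fun i => d i ^ (2 ^ N)) = (P' * P) * Matrix.diagonal (fun i => d i ^ (2 ^ N)) := by
            rw [hP'P, Matrix.one_mul]
        _ = P' * P := by rw [Matrix.mul_assoc, ← h2]
        _ = 1 := hP'P
    intro i
    have := congrFun (congrFun h3 i) i
    rw [Matrix.diagonal_apply_eq, Matrix.one_apply_eq] at this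
    exact this
  have hdne : ∀ i, d i ≠ 0 := by
    intro i h0
    have := hdpow i
    rw [h0, zero_pow (by positivity)] at this
    exact zero_ne_one this
  set ζ : Fin n → ℂˣ := fun i => Units.mk0 (d i) (hdne i) with hζ
  have hζd : (fun i => ((ζ i : ℂˣ) : ℂ)) = d := by funext i; rfl
  have hAP' : ofMat (linMat τ.toFun) τ.det' * ofMat P hPdet = ofMat P hPdet * diagMap ζ := by
    rw [diagMap_eq, ofMat_mul, ofMat_mul]
    apply ofMat_congr
    rw [hAP, hζd]
  set ψ : FG n := (ofMat P hPdet)⁻¹ * φ with hψ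
  have hconj : ψ * τ * ψ⁻¹ = diagMap ζ := by
    have e1 : ψ * τ = diagMap ζ * ψ := by
      calc ψ * τ = (ofMat P hPdet)⁻¹ * (φ * τ) := by rw [hψ]; group
        _ = (ofMat P hPdet)⁻¹ * (ofMat (linMat τ.toFun) τ.det' * ofMat P hPdet) * (ofMat P hPdet)⁻¹ * φ := by
          rw [hφ]; group
        _ = diagMap ζ * ψ := by rw [hAP', hψ]; group
    rw [e1]; group
  refine ⟨N, ζ, ψ, ?_, ?_⟩
  · intro i
    ext
    push_cast
    exact hdpow i
  · rw [← hconj]
    calc ψ * τ * ψ⁻¹ * (ψ * f * ψ⁻¹) * (ψ * τ * ψ⁻¹)⁻¹ = ψ * (τ * f * τ⁻¹) * ψ⁻¹ := by group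
      _ = ψ * f⁻¹ * ψ⁻¹ := by rw [hrev]
      _ = (ψ * f * ψ⁻¹)⁻¹ := by group

/-- (b) implies (c), with the commutation condition -/
theorem param_of_diag {n : ℕ} (g : FG n) (N : ℕ) (ζ : Fin n → ℂˣ) (hζ : ∀ i, (ζ i) ^ (2 ^ N) = 1)
    (hg : diagMap ζ * g * (diagMap ζ)⁻¹ = g⁻¹) :
    ∃ (ε : Fin n → ℂˣ) (h : FG n), (∀ i, (ε i) ^ 2 = 1) ∧
      h * diagMap (ζ ^ 2) = diagMap (ζ ^ 2) * h ∧
      g = h * diagMap (ε * ζ) * h⁻¹ * (diagMap ζ)⁻¹ := by
  classical
  set D := diagMap ζ with hD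
  set σ := g * D with hσ
  have hσ2 : σ * σ = diagMap (ζ ^ 2) := by
    rw [← diagMap_pow, pow_two, ← hD, hσ]
    calc g * D * (g * D) = g * (D * g * D⁻¹) * (D * D) := by group
      _ = D * D := by rw [hg]; group
  have hζ1 : ζ ^ (2 ^ N) = 1 := by funext i; exact hζ i
  have hσpow : σ ^ (2 * 2 ^ N) = 1 := by
    rw [pow_mul, pow_two, hσ2, diagMap_pow, ← pow_mul, mul_comm, pow_mul, hζ1, one_pow, diagMap_one]
  obtain ⟨φ, hφ, -, hφE⟩ := linearise σ (2 * 2 ^ N) (by positivity) hσpow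
  set L := linMat σ.toFun with hL
  have hLpow : L ^ (2 * 2 ^ N) = 1 := by
    rw [hL, ← FG.linMat_pow, hσpow, FG.linMat_one]
  have hlinD : ∀ d : Fin n → ℂˣ, linMat (diagMap d).toFun = Matrix.diagonal (fun i => (d i : ℂ)) := by
    intro d
    rw [diagMap_eq]
    exact linMat_linT _
  have hL2 : L * L = Matrix.diagonal (fun i => ((ζ ^ 2) i : ℂ)) := by
    rw [hL, ← FG.linMat_mul, hσ2, hlinD]
  have hcommL : L * Matrix.diagonal (fun i => ((ζ ^ 2) i : ℂ)) =
      Matrix.diagonal (fun i => ((ζ ^ 2) i : ℂ)) * L := by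
    rw [← hL2, Matrix.mul_assoc]
  obtain ⟨P, P', l, hPP', hP'P, hLP, hPE⟩ := diag_commuting (fun i => ((ζ ^ 2) i : ℂ)) L (2 * 2 ^ N)
    (by positivity) hLpow hcommL
  have hPdet : P.det ≠ 0 := by
    intro h0
    have := congrArg Matrix.det hPP'
    rw [Matrix.det_mul, h0, zero_mul, Matrix.det_one] at this
    exact zero_ne_one this
  have hl2 : ∀ i, l i ^ 2 = (ζ i : ℂ) ^ 2 := by
    have h1 : L * L * P = P * Matrix.diagonal (fun i => l i * l i) := by
      rw [Matrix.mul_assoc, hLP, ← Matrix.mul_assoc, hLP, Matrix.mul_assoc, Matrix.diagonal_mul_diagonal]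
    rw [hL2, ← hPE] at h1
    have h3 : Matrix.diagonal (fun i => ((ζ ^ 2) i : ℂ)) = Matrix.diagonal (fun i => l i * l i) := by
      calc Matrix.diagonal (fun i => ((ζ ^ 2) i : ℂ)) = P' * (P * Matrix.diagonal (fun i => ((ζ ^ 2) i : ℂ))) := by
            rw [← Matrix.mul_assoc, hP'P, Matrix.one_mul]
        _ = P' * (P * Matrix.diagonal (fun i => l i * l i)) := by rw [h1]
        _ = Matrix.diagonal (fun i => l i * l i) := by rw [← Matrix.mul_assoc, hP'P, Matrix.one_mul]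
    intro i
    have := congrFun (congrFun h3 i) i
    rw [Matrix.diagonal_apply_eq, Matrix.diagonal_apply_eq] at this
    rw [pow_two, ← this, Pi.pow_apply, Units.val_pow_eq_pow_val]
  have hlne : ∀ i, l i ≠ 0 := by
    intro i h0
    have := hl2 i
    rw [h0, zero_pow two_ne_zero] at this
    exact (pow_ne_zero 2 (ζ i).ne_zero) this.symm
  set ε : Fin n → ℂˣ := fun i => Units.mk0 (l i) (hlne i) * (ζ i)⁻¹ with hε
  have hεζ : (fun i => (((ε * ζ) i : ℂˣ) : ℂ)) = l := by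
    funext i
    rw [Pi.mul_apply, hε]
    simp
  have hLP' : ofMat L σ.det' * ofMat P hPdet = ofMat P hPdet * diagMap (ε * ζ) := by
    rw [diagMap_eq, ofMat_mul, ofMat_mul]
    apply ofMat_congr
    rw [hLP, hεζ]
  have hPE' : ofMat P hPdet * diagMap (ζ ^ 2) = diagMap (ζ ^ 2) * ofMat P hPdet := by
    rw [diagMap_eq, ofMat_mul, ofMat_mul]
    apply ofMat_congr
    exact hPE
  have hφE' : diagMap (ζ ^ 2) * φ = φ * diagMap (ζ ^ 2) := by
    rw [diagMap_eq]
    apply hφE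
    rw [← diagMap_eq, ← hσ2, mul_assoc]
  refine ⟨ε, φ⁻¹ * ofMat P hPdet, ?_, ?_, ?_⟩
  · intro i
    ext
    rw [hε]
    push_cast
    rw [mul_pow]
    simp only [Units.val_mk0]
    rw [hl2 i, ← mul_pow, mul_inv_cancel₀ (ζ i).ne_zero, one_pow]
  · have h1 : φ⁻¹ * diagMap (ζ ^ 2) = diagMap (ζ ^ 2) * φ⁻¹ := by
      calc φ⁻¹ * diagMap (ζ ^ 2) = φ⁻¹ * (diagMap (ζ ^ 2) * φ) * φ⁻¹ := by group
        _ = φ⁻¹ * (φ * diagMap (ζ ^ 2)) * φ⁻¹ := by rw [hφE']
        _ = diagMap (ζ ^ 2) * φ⁻¹ := by group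
    rw [mul_assoc, hPE', ← mul_assoc, h1, mul_assoc]
  · have hφ' : φ * σ = ofMat L σ.det' * φ := hφ
    have h1 : σ = φ⁻¹ * ofMat P hPdet * diagMap (ε * ζ) * (φ⁻¹ * ofMat P hPdet)⁻¹ := by
      calc σ = φ⁻¹ * (φ * σ) := by group
        _ = φ⁻¹ * (ofMat L σ.det' * ofMat P hPdet) * (ofMat P hPdet)⁻¹ * φ := by rw [hφ']; group
        _ = φ⁻¹ * ofMat P hPdet * diagMap (ε * ζ) * (φ⁻¹ * ofMat P hPdet)⁻¹ := by
          rw [hLP']; group
    rw [← h1, hσ]; group

/-- products of two finite order maps with equal squares are reversible -/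
theorem reversible_of_squares {n : ℕ} (σ τ : FG n) (h : σ ^ 2 = τ ^ 2) : Reversible (σ * τ⁻¹) := by
  refine ⟨τ, ?_⟩
  have h1 : τ * τ = σ * σ := by rw [← pow_two, ← pow_two, h]
  calc τ * (σ * τ⁻¹) * τ⁻¹ = τ * σ * (τ * τ)⁻¹ := by group
    _ = τ * σ * (σ * σ)⁻¹ := by rw [h1]
    _ = (σ * τ⁻¹)⁻¹ := by group

theorem Reversible.conj {n : ℕ} {f : FG n} (h : Reversible f) (φ : FG n) :
    Reversible (φ * f * φ⁻¹) := by
  obtain ⟨k, hk⟩ := h
  refine ⟨φ * k * φ⁻¹, ?_⟩
  calc φ * k * φ⁻¹ * (φ * f * φ⁻¹) * (φ * k * φ⁻¹)⁻¹ = φ * (k * f * k⁻¹) * φ⁻¹ := by group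
    _ = φ * f⁻¹ * φ⁻¹ := by rw [hk]
    _ = (φ * f * φ⁻¹)⁻¹ := by group

end Pool.Agent.H92Rev
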