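import Mathlib

set_option autoImplicit false
open Filter Topology

namespace Pool.Agent.H92Rev

/-- numerator of `A` in the coordinate `w` -/
noncomputable def NA (s w : ℂ) : ℂ := (w - 2 * s - 1 / 2) * (w + s) ^ 2

/-- denominator of `A` in the coordinate `w` -/
noncomputable def MA (s w : ℂ) : ℂ := (w + 2 * s) * (w - s) ^ 2

theorem half_not_int (m : ℤ) : (m : ℂ) ≠ 1 / 2 := by
  intro h
  have h2 : (2 * m : ℂ) = 1 := by linear_combination 2 * h
  have h3 : (2 * m : ℤ) = 1 := by exact_mod_cast h2
  omega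

theorem NA_zero {s w : ℂ} (h : NA s w = 0) : w - 2 * s - 1 / 2 = 0 ∨ w + s = 0 := by
  unfold NA at h
  rcases mul_eq_zero.1 h with h | h
  · exact Or.inl h
  · exact Or.inr (pow_eq_zero_iff (by norm_num) |>.1 h)

theorem MA_zero {s w : ℂ} (h : MA s w = 0) : w + 2 * s = 0 ∨ w - s = 0 := by
  unfold MA at h
  rcases mul_eq_zero.1 h with h | h
  · exact Or.inl h
  · exact Or.inr (pow_eq_zero_iff (by norm_num) |>.1 h)

/-- The divisor of `A` is not balanced modulo `ℤ`. -/
theorem no_match (s : ℂ)
    (h1 : ∀ α, NA s α = 0 → ∃ n : ℤ, MA s (α + n) = 0)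
    (h2 : ∀ α, MA s α = 0 → ∃ n : ℤ, NA s (α + n) = 0) : False := by
  -- s is not an integer
  have hint : ∀ k : ℤ, s ≠ k := by
    intro k hk
    obtain ⟨n, hn⟩ := h1 (2 * s + 1 / 2) (by unfold NA; ring)
    rcases MA_zero hn with h | h
    · apply half_not_int (-4 * k - n)
      push_cast
      rw [hk] at h
      linear_combination -h
    · apply half_not_int (-k - n)
      push_cast
      rw [hk] at h
      linear_combination -h
  obtain ⟨n, hn⟩ := h1 (-s) (by unfold NA; ring)
  rcases MA_zero hn with h | h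
  · exact hint (-n) (by push_cast; linear_combination h)
  · obtain ⟨m, hm⟩ := h2 (-2 * s) (by unfold MA; ring)
    rcases NA_zero hm with h' | h'
    · apply half_not_int (m - 2 * n)
      push_cast
      linear_combination h' - 2 * h
    · exact hint m (by linear_combination -h')

/-- the matching of the zero classes -/
theorem match_classes (s τ c : ℂ) (hg : ∀ a b : ℤ, a ≠ 0 → (a : ℂ) * s ≠ b)
    (h1 : ∀ α, NA s α * NA τ (c - 1 - α) = 0 → ∃ n : ℤ, MA s (α + n) * MA τ (c - 1 - (α + n)) = 0)
    (h2 : ∀ α, MA s α * MA τ (c - 1 - α) = 0 → ∃ n : ℤ, NA s (α + n) * NA τ (c - 1 - (α + n)) = 0) :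
    ∃ m : ℤ, τ = s + 1 / 2 + m := by
  have hA : ∃ n : ℤ, c = 1 - s + n - 2 * τ ∨ c = 1 - s + n + τ := by
    obtain ⟨n, hn⟩ := h1 (-s) (by unfold NA; ring)
    rcases mul_eq_zero.1 hn with h | h
    · exfalso
      rcases MA_zero h with h | h
      · exact hg 1 (-n) (by norm_num) (by push_cast; linear_combination h)
      · exact hg 2 n (by norm_num) (by push_cast; linear_combination -h)
    · rcases MA_zero h with h | h
      · exact ⟨n, Or.inl (by linear_combination h)⟩
      · exact ⟨n, Or.inr (by linear_combination h)⟩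
  have hB : ∃ n : ℤ, c = 3 / 2 + 2 * s + n - 2 * τ ∨ c = 3 / 2 + 2 * s + n + τ := by
    obtain ⟨n, hn⟩ := h1 (2 * s + 1 / 2) (by unfold NA; ring)
    rcases mul_eq_zero.1 hn with h | h
    · exfalso
      rcases MA_zero h with h | h
      · exact hg 8 (-1 - 2 * n) (by norm_num) (by push_cast; linear_combination 2 * h)
      · exact hg 2 (-1 - 2 * n) (by norm_num) (by push_cast; linear_combination 2 * h)
    · rcases MA_zero h with h | h
      · exact ⟨n, Or.inl (by linear_combination h)⟩
      · exact ⟨n, Or.inr (by linear_combination h)⟩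
  have hC : ∃ n : ℤ, c = 3 / 2 - 2 * s + n + 2 * τ ∨ c = 1 - 2 * s + n - τ := by
    obtain ⟨n, hn⟩ := h2 (-2 * s) (by unfold MA; ring)
    rcases mul_eq_zero.1 hn with h | h
    · exfalso
      rcases NA_zero h with h | h
      · exact hg 8 (2 * n - 1) (by norm_num) (by push_cast; linear_combination -2 * h)
      · exact hg 1 n (by norm_num) (by push_cast; linear_combination -h)
    · rcases NA_zero h with h | h
      · exact ⟨n, Or.inl (by linear_combination h)⟩
      · exact ⟨n, Or.inr (by linear_combination h)⟩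
  have hD : ∃ n : ℤ, c = 3 / 2 + s + n + 2 * τ ∨ c = 1 + s + n - τ := by
    obtain ⟨n, hn⟩ := h2 s (by unfold MA; ring)
    rcases mul_eq_zero.1 hn with h | h
    · exfalso
      rcases NA_zero h with h | h
      · exact hg 2 (2 * n - 1) (by norm_num) (by push_cast; linear_combination -2 * h)
      · exact hg 2 (-n) (by norm_num) (by push_cast; linear_combination h)
    · rcases NA_zero h with h | h
      · exact ⟨n, Or.inl (by linear_combination h)⟩
      · exact ⟨n, Or.inr (by linear_combination h)⟩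
  obtain ⟨nA, hA⟩ := hA
  obtain ⟨nB, hB⟩ := hB
  obtain ⟨nC, hC⟩ := hC
  obtain ⟨nD, hD⟩ := hD
  rcases hA with hA | hA <;> rcases hB with hB | hB <;> rcases hC with hC | hC <;>
    rcases hD with hD | hD
  -- A1 B1 : 3 s + 1/2 integer
  · exact (hg 6 (2 * nA - 2 * nB - 1) (by norm_num) (by push_cast; linear_combination 2 * hA - 2 * hB)).elim
  · exact (hg 6 (2 * nA - 2 * nB - 1) (by norm_num) (by push_cast; linear_combination 2 * hA - 2 * hB)).elim
  · exact (hg 6 (2 * nA - 2 * nB - 1) (by norm_num) (by push_cast; linear_combination 2 * hA - 2 * hB)).elim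
  · exact (hg 6 (2 * nA - 2 * nB - 1) (by norm_num) (by push_cast; linear_combination 2 * hA - 2 * hB)).elim
  -- A1 B2 C1 D1
  · exact (hg 3 (nC - nD) (by norm_num) (by push_cast; linear_combination hC - hD)).elim
  -- A1 B2 C1 D2 : 9 s - 1/2 integer
  · exact (hg 18 (1 + 2 * nC + 6 * nA - 8 * nD) (by norm_num) (by
      push_cast; linear_combination -8 * (hD - hA) + 2 * (hC - hA))).elim
  -- A1 B2 C2 D1 : 6 s + 1/2 integer
  · exact (hg 12 (-1 - 2 * nD - 6 * nA + 8 * nC) (by norm_num) (by
      push_cast; linear_combination 8 * (hC - hA) - 2 * (hD - hA))).elim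
  -- A1 B2 C2 D2
  · exact (hg 3 (nC - nD) (by norm_num) (by push_cast; linear_combination hC - hD)).elim
  -- A2 B1 C1 D1
  · exact (hg 3 (nC - nD) (by norm_num) (by push_cast; linear_combination hC - hD)).elim
  -- A2 B1 C1 D2
  · exact ⟨nB - nD, by push_cast; linear_combination hB - hD⟩
  -- A2 B1 C2 D1
  · exact (hg 3 (-1 - 2 * nD + 3 * nA - nC) (by norm_num) (by
      push_cast; linear_combination -2 * (hD - hA) - (hC - hA))).elim
  -- A2 B1 C2 D2
  · exact (hg 3 (nC - nD) (by norm_num) (by push_cast; linear_combination hC - hD)).elim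
  -- A2 B2
  · exact (hg 6 (2 * nA - 2 * nB - 1) (by norm_num) (by push_cast; linear_combination 2 * hA - 2 * hB)).elim
  · exact (hg 6 (2 * nA - 2 * nB - 1) (by norm_num) (by push_cast; linear_combination 2 * hA - 2 * hB)).elim
  · exact (hg 6 (2 * nA - 2 * nB - 1) (by norm_num) (by push_cast; linear_combination 2 * hA - 2 * hB)).elim
  · exact (hg 6 (2 * nA - 2 * nB - 1) (by norm_num) (by push_cast; linear_combination 2 * hA - 2 * hB)).elim

end Pool.Agent.H92Rev
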