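import Pool.Agent.H92Rev.Group
import Pool.Agent.H92Rev.Diag

set_option autoImplicit false

namespace Pool.Agent.H92Rev

/-- `f` is reversible: conjugate to its inverse. -/
def Reversible {n : ℕ} (f : FG n) : Prop := ∃ h : FG n, h * f * h⁻¹ = f⁻¹

theorem FG.linMat_mul {n : ℕ} (F G : FG n) :
    linMat (F * G).toFun = linMat F.toFun * linMat G.toFun := linMat_comp F.mem G.mem

theorem FG.linMat_one {n : ℕ} : linMat (1 : FG n).toFun = 1 := linMat_X

theorem FG.linMat_pow {n : ℕ} (F : FG n) (k : ℕ) :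
    linMat (F ^ k).toFun = (linMat F.toFun) ^ k := by
  induction k with
  | zero => rw [pow_zero, pow_zero, FG.linMat_one]
  | succ k ih => rw [pow_succ, FG.linMat_mul, ih, pow_succ]

/-- the linear formal map with a given invertible matrix -/
noncomputable def ofMat {n : ℕ} (M : Matrix (Fin n) (Fin n) ℂ) (hM : M.det ≠ 0) : FG n :=
  ⟨linT M, fun i => mem_J1_iff.1 (linT_mem _ i), by rw [linMat_linT]; exact hM⟩

theorem ofMat_mul {n : ℕ} (M N : Matrix (Fin n) (Fin n) ℂ) (hM : M.det ≠ 0) (hN : N.det ≠ 0) :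
    ofMat M hM * ofMat N hN = ofMat (M * N) (by rw [Matrix.det_mul]; exact mul_ne_zero hM hN) := by
  ext1
  exact comp_linT_linT M N

theorem ofMat_one {n : ℕ} : ofMat (1 : Matrix (Fin n) (Fin n) ℂ) (by rw [Matrix.det_one]; exact one_ne_zero) = 1 := by
  ext1
  exact linT_one

/-- Reverser of finite order, power of two. -/
theorem exists_two_power_reverser {n : ℕ} (f : FG n) (hf : Reversible f) :
    ∃ (N : ℕ) (τ : FG n), τ ^ (2 ^ N) = 1 ∧ τ * f * τ⁻¹ = f⁻¹ := by
  obtain ⟨h, hh⟩ := hf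
  have hrev : f * (h * f) = h := by
    have : h * f = f⁻¹ * h := by
      rw [← hh]; group
    rw [this]; group
  have hinv : ∀ g : FG n, ∃ G : Fin n → MvPowerSeries (Fin n) ℂ, (∀ i, G i 0 = 0) ∧
      (∀ i, MvPowerSeries.subst G (g.toFun i) = MvPowerSeries.X i) ∧
      (∀ i, MvPowerSeries.subst g.toFun (G i) = MvPowerSeries.X i) := by
    intro g
    refine ⟨(g⁻¹).toFun, fun i => (g⁻¹).zero' i, ?_, ?_⟩
    · intro i
      exact congrFun (congrArg FG.toFun (mul_inv_cancel g)) i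
    · intro i
      exact congrFun (congrArg FG.toFun (inv_mul_cancel g)) i
  obtain ⟨K, hK0, ⟨k, hk1, hk⟩, hKrev⟩ := mainThm n f.toFun h.toFun (fun i => f.zero' i) (hinv f)
    (fun i => h.zero' i) (hinv h) (fun i => congrFun (congrArg FG.toFun hrev) i)
  have jK : ∀ i, K i ∈ J n 1 := fun i => coeff_zero_mem (hK0 i)
  -- det of K
  have hiter : ∀ q : ℕ, (∀ i, ((fun M : Fin n → PS n => fun i => MvPowerSeries.subst M (K i))^[q]
      (fun i => MvPowerSeries.X i)) i ∈ J n 1) ∧
      linMat ((fun M : Fin n → PS n => fun i => MvPowerSeries.subst M (K i))^[q]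
      (fun i => MvPowerSeries.X i)) = (linMat K) ^ q := by
    intro q
    induction q with
    | zero =>
      refine ⟨fun i => X_mem_J i, ?_⟩
      rw [pow_zero]
      exact linMat_X
    | succ q ih =>
      rw [Function.iterate_succ_apply']
      refine ⟨fun i => comp_mem jK ih.1 i, ?_⟩
      rw [pow_succ', ← ih.2]
      exact linMat_comp jK ih.1
  have hdet : (linMat K).det ≠ 0 := by
    have h1 := (hiter k).2
    rw [hk, linMat_X] at h1
    intro h0
    have h2 := congrArg Matrix.det h1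
    rw [Matrix.det_pow, h0, Matrix.det_one, zero_pow (by omega)] at h2
    exact one_ne_zero h2
  set κ : FG n := ⟨K, fun i => mem_J1_iff.1 (jK i), hdet⟩ with hκ
  have hκpow : ∀ q : ℕ, (κ ^ q).toFun = (fun M : Fin n → PS n => fun i => MvPowerSeries.subst M (K i))^[q]
      (fun i => MvPowerSeries.X i) := by
    intro q
    induction q with
    | zero => rfl
    | succ q ih =>
      rw [Function.iterate_succ_apply', pow_succ', ← ih]
      rfl
  have hκk : κ ^ k = 1 := by
    ext1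
    rw [hκpow, hk]
    rfl
  have hκrev : f * (κ * f) = κ := by
    ext1
    funext i
    exact hKrev i
  have hκconj : κ * f * κ⁻¹ = f⁻¹ := by
    have : κ * f = f⁻¹ * κ := by
      calc κ * f = f⁻¹ * (f * (κ * f)) := by group
        _ = f⁻¹ * κ := by rw [hκrev]
    rw [this]; group
  -- odd part
  obtain ⟨N, m, hm, hkm⟩ : ∃ N m : ℕ, ¬ 2 ∣ m ∧ k = 2 ^ N * m :=
    Nat.exists_eq_pow_mul_and_not_dvd (by omega) 2 (by norm_num)
  have hodd : ∀ j : ℕ, κ ^ (2 * j + 1) * f * (κ ^ (2 * j + 1))⁻¹ = f⁻¹ := by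
    intro j
    induction j with
    | zero => simpa using hκconj
    | succ j ih =>
      have e1 : κ ^ (2 * (j + 1) + 1) = κ * κ * κ ^ (2 * j + 1) := by
        rw [show 2 * (j + 1) + 1 = 2 + (2 * j + 1) by ring, pow_add, pow_two]
      rw [e1]
      calc κ * κ * κ ^ (2 * j + 1) * f * (κ * κ * κ ^ (2 * j + 1))⁻¹
          = κ * (κ * (κ ^ (2 * j + 1) * f * (κ ^ (2 * j + 1))⁻¹) * κ⁻¹) * κ⁻¹ := by group
        _ = κ * (κ * f⁻¹ * κ⁻¹) * κ⁻¹ := by rw [ih]
        _ = κ * (κ * f * κ⁻¹)⁻¹ * κ⁻¹ := by group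
        _ = f⁻¹ := by rw [hκconj, inv_inv, hκconj]
  obtain ⟨j, hj⟩ : ∃ j, m = 2 * j + 1 := by
    have : m % 2 = 1 := by omega
    exact ⟨m / 2, by omega⟩
  refine ⟨N, κ ^ m, ?_, ?_⟩
  · rw [← pow_mul, mul_comm m, ← hkm, hκk]
  · rw [hj]
    exact hodd j

/-- scalar combinations of compositions -/
theorem comp_sum {n : ℕ} {ι : Type*} (s : Finset ι) (F : ι → Fin n → PS n) {G : Fin n → PS n}
    (hG : ∀ i, G i ∈ J n 1) :
    comp (fun i => ∑ k ∈ s, F k i) G = fun i => ∑ k ∈ s, comp (F k) G i := by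
  funext i
  unfold comp
  have h := map_sum (MvPowerSeries.substAlgHom (hasSubst_of hG) : PS n →ₐ[ℂ] PS n)
    (fun k => F k i) s
  rw [MvPowerSeries.substAlgHom_apply] at h
  rw [h]
  apply Finset.sum_congr rfl
  intro k _
  rw [MvPowerSeries.substAlgHom_apply]

theorem comp_smul {n : ℕ} (c : ℂ) (F : Fin n → PS n) {G : Fin n → PS n}
    (hG : ∀ i, G i ∈ J n 1) :
    comp (fun i => c • F i) G = fun i => c • comp F G i := by
  funext i
  unfold comp
  have h := map_smul (MvPowerSeries.substAlgHom (hasSubst_of hG) : PS n →ₐ[ℂ] PS n) c (F i)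
  rw [MvPowerSeries.substAlgHom_apply, MvPowerSeries.substAlgHom_apply] at h
  exact h

/-- Linearisation of a finite order map, compatible with commuting linear maps. -/
theorem linearise {n : ℕ} (τ : FG n) (N : ℕ) (hN : 0 < N) (hτ : τ ^ N = 1) :
    ∃ φ : FG n, φ * τ = ofMat (linMat τ.toFun) τ.det' * φ ∧ linMat φ.toFun = 1 ∧
      ∀ (E : Matrix (Fin n) (Fin n) ℂ) (hE : E.det ≠ 0),
        ofMat E hE * τ = τ * ofMat E hE → ofMat E hE * φ = φ * ofMat E hE := by
  classical
  set A := ofMat (linMat τ.toFun) τ.det' with hA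
  have hAN : A ^ N = 1 := by
    have h1 : ∀ q : ℕ, A ^ q = ofMat ((linMat τ.toFun) ^ q)
        (by rw [Matrix.det_pow]; exact pow_ne_zero _ τ.det') := by
      intro q
      induction q with
      | zero =>
        rw [pow_zero]
        ext1
        show (1 : FG n).toFun = linT ((linMat τ.toFun) ^ 0)
        rw [pow_zero, linT_one]
        rfl
      | succ q ih =>
        rw [pow_succ, ih, hA, ofMat_mul]
        congr 1
    rw [h1]
    ext1
    show linT ((linMat τ.toFun) ^ N) = _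
    rw [← FG.linMat_pow, hτ, FG.linMat_one, linT_one]
    rfl
  -- the average
  set S : Fin n → PS n := fun i => ∑ k ∈ Finset.range N, ((A ^ k)⁻¹ * τ ^ k).toFun i with hS
  set Φ : Fin n → PS n := fun i => ((N : ℂ)⁻¹) • S i with hΦ
  have hNc : (N : ℂ) ≠ 0 := by exact_mod_cast hN.ne'
  have jS : ∀ i, S i ∈ J n 1 := fun i => Ideal.sum_mem _ fun k _ => FG.mem _ i
  have jΦ : ∀ i, Φ i ∈ J n 1 := by
    intro i
    rw [hΦ]
    simp only
    rw [MvPowerSeries.smul_eq_C_mul]
    exact Ideal.mul_mem_left _ _ (jS i)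
  have hlinA : linMat A.toFun = linMat τ.toFun := linMat_linT _
  have hone : ∀ k : ℕ, linMat ((A ^ k)⁻¹ * τ ^ k).toFun = 1 := by
    intro k
    have h1 : linMat (A ^ k).toFun = linMat (τ ^ k).toFun := by
      rw [FG.linMat_pow, FG.linMat_pow, hlinA]
    rw [FG.linMat_mul, ← h1, ← FG.linMat_mul, inv_mul_cancel, FG.linMat_one]
  have hlinΦ : linMat Φ = 1 := by
    ext i j
    show MvPowerSeries.coeff (Finsupp.single j 1) (Φ i) = _
    rw [hΦ]
    simp only
    rw [MvPowerSeries.coeff_smul, hS]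
    simp only
    rw [map_sum]
    have : ∀ k ∈ Finset.range N, MvPowerSeries.coeff (Finsupp.single j 1)
        (((A ^ k)⁻¹ * τ ^ k).toFun i) = (1 : Matrix (Fin n) (Fin n) ℂ) i j := by
      intro k _
      exact congrFun (congrFun (hone k) i) j
    rw [Finset.sum_congr rfl this, Finset.sum_const, Finset.card_range, nsmul_eq_mul,
      ← mul_assoc, inv_mul_cancel₀ hNc, one_mul]
  set φ : FG n := ⟨Φ, fun i => mem_J1_iff.1 (jΦ i), by rw [hlinΦ, Matrix.det_one]; exact one_ne_zero⟩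
    with hφ
  -- right composition
  have hright : ∀ ψ : FG n, (φ * ψ).toFun = fun i => ((N : ℂ)⁻¹) •
      ∑ k ∈ Finset.range N, ((A ^ k)⁻¹ * τ ^ k * ψ).toFun i := by
    intro ψ
    show comp (fun i => ((N : ℂ)⁻¹) • S i) ψ.toFun = _
    rw [comp_smul _ _ ψ.mem, hS, comp_sum _ _ ψ.mem]
    rfl
  -- left composition with a linear map
  have hleft : ∀ (E : Matrix (Fin n) (Fin n) ℂ) (hE : E.det ≠ 0), (ofMat E hE * φ).toFun =
      fun i => ((N : ℂ)⁻¹) •
      ∑ k ∈ Finset.range N, (ofMat E hE * ((A ^ k)⁻¹ * τ ^ k)).toFun i := by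
    intro E hE
    funext i
    show comp (linT E) (fun i => ((N : ℂ)⁻¹) • S i) i = _
    rw [comp_linT _ jΦ]
    have h1 : ∀ k, (ofMat E hE * ((A ^ k)⁻¹ * τ ^ k)).toFun i =
        ∑ j, MvPowerSeries.C (E i j) * ((A ^ k)⁻¹ * τ ^ k).toFun j := by
      intro k
      exact comp_linT _ (FG.mem _) i
    simp only [h1, hΦ, hS]
    rw [Finset.sum_comm, Finset.smul_sum]
    apply Finset.sum_congr rfl
    intro j _
    rw [mul_smul_comm, Finset.mul_sum]
  refine ⟨φ, ?_, hlinΦ, ?_⟩
  · ext1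
    rw [hright, hleft]
    funext i
    congr 1
    have e1 : ∀ k, ((A ^ k)⁻¹ * τ ^ k * τ).toFun i = (A * ((A ^ (k + 1))⁻¹ * τ ^ (k + 1))).toFun i := by
      intro k
      have hkey : (A ^ k)⁻¹ * τ ^ k * τ = A * ((A ^ (k + 1))⁻¹ * τ ^ (k + 1)) := by
        rw [pow_succ' A, mul_inv_rev, pow_succ τ]
        have hcomm : A * (A ^ k)⁻¹ = (A ^ k)⁻¹ * A := by
          have : Commute A (A ^ k)⁻¹ := (Commute.refl A).pow_right k |>.inv_right
          exact this
        calc (A ^ k)⁻¹ * τ ^ k * τ = ((A ^ k)⁻¹ * A) * A⁻¹ * (τ ^ k * τ) := by group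
          _ = (A * (A ^ k)⁻¹) * A⁻¹ * (τ ^ k * τ) := by rw [hcomm]
          _ = A * ((A ^ k)⁻¹ * A⁻¹ * (τ ^ k * τ)) := by
            simp only [mul_assoc]
      rw [hkey]
    have e2 : ofMat (linMat τ.toFun) τ.det' = A := rfl
    rw [Finset.sum_congr rfl fun k _ => e1 k]
    have e3 := Finset.sum_range_succ (fun k => (A * ((A ^ k)⁻¹ * τ ^ k)).toFun i) N
    have e4 := Finset.sum_range_succ' (fun k => (A * ((A ^ k)⁻¹ * τ ^ k)).toFun i) N
    rw [e3] at e4
    rw [hAN, hτ] at e4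
    simp only [pow_zero] at e4
    exact (add_right_cancel e4).symm
  · intro E hE hcomm
    ext1
    rw [hright, hleft]
    funext i
    congr 1
    apply Finset.sum_congr rfl
    intro k _
    have hc1 : Commute (ofMat E hE) τ := hcomm
    have hc2 : Commute (ofMat E hE) A := by
      have h1 : linMat ((ofMat E hE) * τ).toFun = linMat (τ * ofMat E hE).toFun := by rw [hcomm]
      rw [FG.linMat_mul, FG.linMat_mul] at h1
      have h2 : linMat (ofMat E hE).toFun = E := linMat_linT E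
      rw [h2] at h1
      show ofMat E hE * A = A * ofMat E hE
      rw [hA, ofMat_mul, ofMat_mul]
      congr 1
    have : Commute (ofMat E hE) ((A ^ k)⁻¹ * τ ^ k) :=
      ((hc2.pow_right k).inv_right).mul_right (hc1.pow_right k)
    rw [this.eq]
end Pool.Agent.H92Rev
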