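import Mathlib

set_option autoImplicit false
open Filter Topology

namespace Pool.Agent.H92Rev

/-- iteration of the cocycle relation -/
theorem rel_iter (F N M : ℂ → ℂ) (R : ℝ)
    (hrel : ∀ w : ℂ, R < |w.im| → M w * F w = N w * F (w + 1)) (n : ℕ) :
    ∀ w : ℂ, R < |w.im| → (∏ j ∈ Finset.range n, M (w + j)) * F w =
      (∏ j ∈ Finset.range n, N (w + j)) * F (w + n) := by
  induction n with
  | zero => simp
  | succ n ih =>
    intro w hw
    rw [Finset.prod_range_succ, Finset.prod_range_succ]
    have h1 := ih w hw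
    have h2 := hrel (w + n) (by simpa using hw)
    have h3 : w + ((n + 1 : ℕ) : ℂ) = w + n + 1 := by push_cast; ring
    rw [h3]
    calc (∏ x ∈ Finset.range n, M (w + x)) * M (w + n) * F w
        = M (w+n) * ((∏ j ∈ Finset.range n, M (w + j)) * F w) := by ring
      _ = M (w+n) * ((∏ j ∈ Finset.range n, N (w + j)) * F (w + n)) := by rw [h1]
      _ = (∏ j ∈ Finset.range n, N (w + j)) * (M (w+n) * F (w + n)) := by ring
      _ = (∏ j ∈ Finset.range n, N (w + j)) * N (w + n) * F (w + n + 1) := by rw [h2]; ring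

theorem strip_identity (F N M : ℂ → ℂ) (R : ℝ) (hR : 0 ≤ R)
    (hN : Differentiable ℂ N) (hM : Differentiable ℂ M)
    (hF : DifferentiableOn ℂ F {w | R < ‖w‖})
    (hrel : ∀ w : ℂ, R < |w.im| → M w * F w = N w * F (w + 1)) (n : ℕ) (w : ℂ)
    (h1 : w.re < -R) (h2 : R < w.re + n) :
    (∏ j ∈ Finset.range n, M (w + j)) * F w =
      (∏ j ∈ Finset.range n, N (w + j)) * F (w + n) := by
  set S : Set ℂ := {w | w.re < -R} ∩ {w | R - n < w.re} with hS
  have hSo : IsOpen S := by
    apply IsOpen.inter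
    · exact isOpen_lt Complex.continuous_re continuous_const
    · exact isOpen_lt continuous_const Complex.continuous_re
  have hSc : IsPreconnected S :=
    ((convex_halfSpace_re_lt (-R)).inter (convex_halfSpace_re_gt (R - n))).isPreconnected
  have hd1 : DifferentiableOn ℂ (fun w => (∏ j ∈ Finset.range n, M (w + j)) * F w) S := by
    apply DifferentiableOn.mul
    · apply Differentiable.differentiableOn
      apply Differentiable.fun_finsetProd
      intro j _
      exact hM.comp (differentiable_id.add_const _)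
    · apply hF.mono
      intro w hw
      have hw1 : w.re < -R := hw.1
      have := Complex.abs_re_le_norm w
      have h3 : R < |w.re| := by rw [abs_of_neg (by linarith)]; linarith
      exact lt_of_lt_of_le h3 this
  have hd2 : DifferentiableOn ℂ (fun w => (∏ j ∈ Finset.range n, N (w + j)) * F (w + n)) S := by
    apply DifferentiableOn.mul
    · apply Differentiable.differentiableOn
      apply Differentiable.fun_finsetProd
      intro j _
      exact hN.comp (differentiable_id.add_const _)
    · apply hF.comp ((differentiable_id.add_const _).differentiableOn)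
      intro w hw
      have hw2 : R - n < w.re := hw.2
      have := Complex.abs_re_le_norm (w + n)
      have h3 : R < |(w + n).re| := by
        rw [Complex.add_re, Complex.natCast_re, abs_of_pos (by linarith)]; linarith
      exact lt_of_lt_of_le h3 this
  have ha1 := hd1.analyticOnNhd hSo
  have ha2 := hd2.analyticOnNhd hSo
  have hwS : w ∈ S := ⟨h1, by show R - n < w.re; linarith⟩
  set z0 : ℂ := ⟨w.re, R + 1⟩ with hz0
  have hz0S : z0 ∈ S := ⟨h1, by show R - n < w.re; linarith⟩
  have hev : (fun w => (∏ j ∈ Finset.range n, M (w + j)) * F w) =ᶠ[𝓝 z0]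
      (fun w => (∏ j ∈ Finset.range n, N (w + j)) * F (w + n)) := by
    have hopen : ∀ᶠ z : ℂ in 𝓝 z0, R < |z.im| := by
      have hc : Continuous (fun z : ℂ => |z.im|) := Complex.continuous_im.abs
      apply continuousAt_const.eventually_lt hc.continuousAt
      simp only [hz0]
      rw [abs_of_pos (by linarith)]; linarith
    filter_upwards [hopen] with z hz
    exact rel_iter F N M R hrel n z hz
  exact ha1.eqOn_of_preconnected_of_eventuallyEq ha2 hSc hz0S hev hwS

/-- The zero classes modulo `ℤ` agree. -/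
theorem strip (F N M : ℂ → ℂ) (R : ℝ) (hR : 0 ≤ R)
    (hN : Differentiable ℂ N) (hM : Differentiable ℂ M)
    (hF : DifferentiableOn ℂ F {w | R < ‖w‖}) (hF0 : ∀ w, R < ‖w‖ → F w ≠ 0)
    (hrel : ∀ w : ℂ, R < ‖w‖ → M w * F w = N w * F (w + 1)) :
    (∀ α, N α = 0 → ∃ n : ℤ, M (α + n) = 0) ∧ (∀ α, M α = 0 → ∃ n : ℤ, N (α + n) = 0) := by
  have hrel' : ∀ w : ℂ, R < |w.im| → M w * F w = N w * F (w + 1) := fun w hw =>
    hrel w (lt_of_lt_of_le hw (Complex.abs_im_le_norm w))
  -- choice of the shift
  have key : ∀ α : ℂ, ∃ (j n : ℕ), j < n ∧ (α - j).re < -R ∧ R < (α - j).re + n := by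
    intro α
    obtain ⟨j, hj⟩ := exists_nat_gt (|α.re| + R)
    refine ⟨j, 2 * j + 1, by omega, ?_, ?_⟩
    · rw [Complex.sub_re, Complex.natCast_re]
      have := le_abs_self α.re
      linarith
    · rw [Complex.sub_re, Complex.natCast_re]
      have := neg_abs_le α.re
      push_cast
      linarith
  have hn1 : ∀ w : ℂ, w.re < -R → R < ‖w‖ := by
    intro w hw
    have := Complex.abs_re_le_norm w
    have h3 : R < |w.re| := by rw [abs_of_neg (by linarith)]; linarith
    exact lt_of_lt_of_le h3 this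
  have hn2 : ∀ (w : ℂ) (n : ℕ), R < w.re + n → R < ‖w + n‖ := by
    intro w n hw
    have := Complex.abs_re_le_norm (w + n)
    have h3 : R < |(w + n).re| := by
      rw [Complex.add_re, Complex.natCast_re, abs_of_pos (by linarith)]; linarith
    exact lt_of_lt_of_le h3 this
  constructor
  · intro α hα
    obtain ⟨j, n, hjn, h1, h2⟩ := key α
    have h3 := strip_identity F N M R hR hN hM hF hrel' n (α - j) h1 h2
    have h4 : (∏ i ∈ Finset.range n, N (α - j + i)) = 0 := by
      apply Finset.prod_eq_zero (Finset.mem_range.2 hjn)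
      rw [sub_add_cancel]; exact hα
    rw [h4, zero_mul] at h3
    rcases mul_eq_zero.1 h3 with h5 | h5
    · obtain ⟨i, _, hi⟩ := Finset.prod_eq_zero_iff.1 h5
      refine ⟨(i : ℤ) - j, ?_⟩
      push_cast
      rw [← hi]; congr 1; ring
    · exact absurd h5 (hF0 _ (hn1 _ h1))
  · intro α hα
    obtain ⟨j, n, hjn, h1, h2⟩ := key α
    have h3 := strip_identity F N M R hR hN hM hF hrel' n (α - j) h1 h2
    have h4 : (∏ i ∈ Finset.range n, M (α - j + i)) = 0 := by
      apply Finset.prod_eq_zero (Finset.mem_range.2 hjn)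
      rw [sub_add_cancel]; exact hα
    rw [h4, zero_mul] at h3
    rcases mul_eq_zero.1 h3.symm with h5 | h5
    · obtain ⟨i, _, hi⟩ := Finset.prod_eq_zero_iff.1 h5
      refine ⟨(i : ℤ) - j, ?_⟩
      push_cast
      rw [← hi]; congr 1; ring
    · exact absurd h5 (hF0 _ (hn2 _ _ h2))

/-- One-variable version near `x = 0`, with `w = 1/(x y)`. -/
theorem germ_classes (y : ℂ) (hy : y ≠ 0) (F N M : ℂ → ℂ) (hFa : AnalyticAt ℂ F 0)
    (hN : Differentiable ℂ N) (hM : Differentiable ℂ M)
    (hrel : ∀ᶠ x in 𝓝[≠] (0 : ℂ), M (1 / (x * y)) * F x = N (1 / (x * y)) * F (x / (1 + x * y)))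
    (hne : ¬ ∀ᶠ x in 𝓝 (0 : ℂ), F x = 0) :
    (∀ α, N α = 0 → ∃ n : ℤ, M (α + n) = 0) ∧ (∀ α, M α = 0 → ∃ n : ℤ, N (α + n) = 0) := by
  have h0 : ∀ᶠ x in 𝓝[≠] (0 : ℂ), F x ≠ 0 :=
    hFa.eventually_eq_zero_or_eventually_ne_zero.resolve_left hne
  have h1 : ∀ᶠ x in 𝓝[≠] (0 : ℂ), DifferentiableAt ℂ F x :=
    (hFa.eventually_analyticAt.mono fun x hx => hx.differentiableAt).filter_mono nhdsWithin_le_nhds
  have h2 := h0.and (h1.and hrel)
  rw [eventually_nhdsWithin_iff, Metric.eventually_nhds_iff] at h2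
  obtain ⟨ε, hε, h3⟩ := h2
  have hyn : 0 < ‖y‖ := norm_pos_iff.2 hy
  set R : ℝ := 1 / (ε * ‖y‖) + 1 with hRdef
  have hR1 : 1 ≤ R := by
    have : 0 < 1 / (ε * ‖y‖) := by positivity
    linarith
  have hR : 0 ≤ R := by linarith
  have hpt : ∀ w : ℂ, R < ‖w‖ → F (1 / (w * y)) ≠ 0 ∧ DifferentiableAt ℂ F (1 / (w * y)) ∧
      M w * F (1 / (w * y)) = N w * F (1 / ((w + 1) * y)) := by
    intro w hw
    have hw0 : w ≠ 0 := by
      rintro rfl
      rw [norm_zero] at hw; linarith
    have hw1 : w + 1 ≠ 0 := by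
      intro h
      have : w = -1 := by linear_combination h
      rw [this, norm_neg, norm_one] at hw; linarith
    have hx0 : 1 / (w * y) ≠ 0 := one_div_ne_zero (mul_ne_zero hw0 hy)
    have hxε : dist (1 / (w * y)) 0 < ε := by
      rw [dist_zero_right, norm_div, norm_one, norm_mul]
      rw [div_lt_iff₀ (by positivity)]
      have h4 : 1 / (ε * ‖y‖) < ‖w‖ := by linarith
      rw [div_lt_iff₀ (by positivity)] at h4
      linarith
    obtain ⟨h5, h6, h7⟩ := h3 hxε hx0
    refine ⟨h5, h6, ?_⟩
    have h8 : 1 / (1 / (w * y) * y) = w := by field_simp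
    have h9 : 1 / (w * y) / (1 + 1 / (w * y) * y) = 1 / ((w + 1) * y) := by
      field_simp
    rw [h8, h9] at h7
    exact h7
  apply strip (fun w => F (1 / (w * y))) N M R hR hN hM
  · intro w hw
    apply DifferentiableAt.differentiableWithinAt
    have hw0 : w ≠ 0 := by
      rintro rfl
      have : R < ‖(0:ℂ)‖ := hw
      rw [norm_zero] at this; linarith
    apply DifferentiableAt.comp w (hpt w hw).2.1
    exact DifferentiableAt.fun_div (differentiableAt_const _)
      (differentiableAt_fun_id.mul_const y) (mul_ne_zero hw0 hy)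
  · intro w hw
    exact (hpt w hw).1
  · intro w hw
    exact (hpt w hw).2.2

end Pool.Agent.H92Rev
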